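import Mathlib

/-!
Closed forms for all powers of the cycle matrices `W_A` (product of two complex reflections) and
`W_B` (a matrix with a simple eigenvalue), projectively: the powers run through a family of
matrices with one (two) parameters, with a rational recursion for the parameters.
-/

set_option autoImplicit false
namespace Pool.Agent.Helper32.C75

/-! ### products of two complex reflections -/

section A
variable {R : Type*} [Ring R] [Algebra ℂ R]

/-- `Z2 = (W + W⁻¹)/2 - 1` -/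
noncomputable def Z2 (W Wi : R) : R := (1 / 2 : ℂ) • (W + Wi) - 1
/-- `Z1 = (W - W⁻¹)/2` -/
noncomputable def Z1 (W Wi : R) : R := (1 / 2 : ℂ) • (W - Wi)
/-- `B = ((k+1) A² - (k-1))/2` -/
noncomputable def BofA (k a : ℂ) : ℂ := ((k + 1) * a ^ 2 - (k - 1)) / 2
/-- the family `T(A) = Z2 + A Z1 + B` -/
noncomputable def TA (W Wi : R) (k a : ℂ) : R := Z2 W Wi + a • Z1 W Wi + BofA k a • (1 : R)
/-- one step of the recursion `A' = (A + (k-1)/(k+1))/(1 + A)` -/
noncomputable def FA (k a : ℂ) : ℂ := (a + (k - 1) / (k + 1)) / (1 + a)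

/-- `(W - 1)(W² - 2kW + 1) = 0` after multiplication by the inverse -/
theorem mul_Z2 {W Wi : R} (h1 : W * Wi = 1) (k : ℂ)
    (hc : (W - 1) * (W * W - (2 * k) • W + 1) = 0) :
    W * Z2 W Wi = k • Z2 W Wi + (k - 1) • Z1 W Wi := by
  have e : (W - 1) * (W * W - (2 * k) • W + 1) * Wi = 0 := by rw [hc, zero_mul]
  have e2 : (W - 1) * (W * W - (2 * k) • W + 1) * Wi
      = (W - 1) * (W - (2 * k) • (1 : R) + Wi) := by
    have : (W * W - (2 * k) • W + 1) * Wi = W - (2 * k) • (1 : R) + Wi := by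
      rw [add_mul, sub_mul, mul_assoc, h1, mul_one, smul_mul_assoc, h1, one_mul]
    rw [mul_assoc, this]
  rw [e2] at e
  have e3 : W * W + W * Wi = (2 * k) • W + (W + Wi) - (2 * k) • (1 : R) := by
    have e4 : (W - 1) * (W - (2 * k) • (1 : R) + Wi)
        = W * W + W * Wi - (2 * k) • W - (W + Wi) + (2 * k) • (1 : R) := by
      simp only [sub_mul, mul_add, mul_sub, one_mul, mul_smul_comm, mul_one]
      module
    rw [e4] at e
    have := e
    calc W * W + W * Wi = (W * W + W * Wi - (2 * k) • W - (W + Wi) + (2 * k) • (1 : R))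
          + ((2 * k) • W + (W + Wi) - (2 * k) • (1 : R)) := by abel
      _ = _ := by rw [this, zero_add]
  unfold Z2 Z1
  have e5 : W * ((1 / 2 : ℂ) • (W + Wi) - 1) = (1 / 2 : ℂ) • (W * W + W * Wi) - W := by
    rw [mul_sub, mul_smul_comm, mul_add, mul_one]
  rw [e5, e3]
  module

theorem mul_Z1 {W Wi : R} (h1 : W * Wi = 1) (k : ℂ)
    (hc : (W - 1) * (W * W - (2 * k) • W + 1) = 0) :
    W * Z1 W Wi = (k + 1) • Z2 W Wi + k • Z1 W Wi := by
  have h := mul_Z2 h1 k hc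
  have hW : W = Z1 W Wi + Z2 W Wi + 1 := by
    unfold Z1 Z2; module
  have e1 : W * Z1 W Wi = (1 / 2 : ℂ) • (W * W - 1) := by
    unfold Z1; rw [mul_smul_comm, mul_sub, h1]
  have e2 : W * W = W * Z1 W Wi + W * Z2 W Wi + W := by
    conv_lhs => rw [show W * W = W * (Z1 W Wi + Z2 W Wi + 1) by rw [← hW]]
    rw [mul_add, mul_add, mul_one]
  rw [h] at e2
  have e3 : W * W = (2 : ℂ) • (W * Z1 W Wi) + 1 := by
    rw [e1]; module
  -- 2 x + 1 = x + (k Z2 + (k-1) Z1) + W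
  have e4 : W * Z1 W Wi = k • Z2 W Wi + (k - 1) • Z1 W Wi + W - 1 := by
    have : (2 : ℂ) • (W * Z1 W Wi) + 1
        = W * Z1 W Wi + (k • Z2 W Wi + (k - 1) • Z1 W Wi) + W := by
      rw [← e3]; exact e2
    calc W * Z1 W Wi = ((2 : ℂ) • (W * Z1 W Wi) + 1) - W * Z1 W Wi - 1 := by module
      _ = _ := by rw [this]; abel
  rw [e4]
  conv_lhs => rw [show k • Z2 W Wi + (k - 1) • Z1 W Wi + W - 1
    = k • Z2 W Wi + (k - 1) • Z1 W Wi + (Z1 W Wi + Z2 W Wi + 1) - 1 by rw [← hW]]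
  module

theorem mul_TA {W Wi : R} (h1 : W * Wi = 1) (k : ℂ) (hk : k + 1 ≠ 0)
    (hc : (W - 1) * (W * W - (2 * k) • W + 1) = 0) (a : ℂ) (ha : 1 + a ≠ 0) :
    W * TA W Wi k a = ((k + 1) * (1 + a) ^ 2 / 2) • TA W Wi k (FA k a) := by
  have hW : W = Z1 W Wi + Z2 W Wi + 1 := by
    unfold Z1 Z2; module
  have e : W * TA W Wi k a = (k + a * (k + 1) + BofA k a) • Z2 W Wi
      + ((k - 1) + a * k + BofA k a) • Z1 W Wi + BofA k a • (1 : R) := by
    unfold TA
    rw [mul_add, mul_add, mul_smul_comm, mul_smul_comm, mul_one, mul_Z2 h1 k hc,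
      mul_Z1 h1 k hc]
    conv_lhs => rw [show BofA k a • W = BofA k a • (Z1 W Wi + Z2 W Wi + 1) by rw [← hW]]
    module
  rw [e]
  unfold TA
  rw [smul_add, smul_add, smul_smul, smul_smul]
  have c1 : k + a * (k + 1) + BofA k a = (k + 1) * (1 + a) ^ 2 / 2 := by
    unfold BofA; ring
  have c2 : (k - 1) + a * k + BofA k a = (k + 1) * (1 + a) ^ 2 / 2 * FA k a := by
    unfold BofA FA; field_simp; ring
  have c3 : BofA k a = (k + 1) * (1 + a) ^ 2 / 2 * BofA k (FA k a) := by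
    unfold BofA FA; field_simp; ring
  rw [c1, c2, ← c3]

/-- the parameters `A_1 = 1`, `A_{m+1} = F(A_m)` -/
noncomputable def Aseq (k : ℂ) : ℕ → ℂ
  | 0 => 1
  | (n + 1) => FA k (Aseq k n)

/-- `W^(n+1) = b • T(A_{n+1})` with `b ≠ 0`, where `A_{n+1} = Aseq k n`. -/
theorem pow_eq_TA {W Wi : R} (h1 : W * Wi = 1) (k : ℂ) (hk : k + 1 ≠ 0)
    (hc : (W - 1) * (W * W - (2 * k) • W + 1) = 0)
    (n : ℕ) (ha : ∀ j < n, 1 + Aseq k j ≠ 0) :
    ∃ b : ℂ, b ≠ 0 ∧ W ^ (n + 1) = b • TA W Wi k (Aseq k n) := by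
  induction n with
  | zero =>
    refine ⟨1, one_ne_zero, ?_⟩
    unfold TA Aseq BofA Z1 Z2
    rw [zero_add, pow_one]
    module
  | succ n ih =>
    obtain ⟨b, hb, e⟩ := ih (fun j hj => ha j (Nat.lt_succ_of_lt hj))
    have han := ha n (Nat.lt_succ_self n)
    refine ⟨b * ((k + 1) * (1 + Aseq k n) ^ 2 / 2), ?_, ?_⟩
    · refine mul_ne_zero hb (div_ne_zero (mul_ne_zero hk (pow_ne_zero 2 han)) two_ne_zero)
    · rw [pow_succ', e, mul_smul_comm, mul_TA h1 k hk hc _ han, smul_smul]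
      rfl
end A

/-! ### a matrix with a simple eigenvalue `nu` -/

section B
variable {R : Type*} [Ring R] [Algebra ℂ R]

/-- the family `T(r, rho) = N + r P + rho Q` -/
def TB (N P Q : R) (r rho : ℂ) : R := N + r • P + rho • Q

theorem mul_TB {N P Q W : R} {m ch nu : ℂ} (hPP : P * P = P) (hQQ : Q * Q = Q)
    (hPQ : P * Q = 0) (hQP : Q * P = 0) (hPN : P * N = N) (hNP : N * P = N)
    (hNQ : N * Q = 0) (hQN : Q * N = 0)
    (hNN : N * N = (ch ^ 2 - 1) • P) (hW : W = m • (N + ch • P) + nu • Q)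
    (hm : m ≠ 0) (r rho : ℂ) (hr : ch + r ≠ 0) :
    W * TB N P Q r rho = (m * (ch + r)) •
      TB N P Q ((ch * r + ch ^ 2 - 1) / (ch + r)) (nu / m * rho / (ch + r)) := by
  unfold TB
  have e : W * (N + r • P + rho • Q) = (m * (ch ^ 2 - 1) + m * (ch * r)) • P
      + (m * (ch + r)) • N + (nu * rho) • Q := by
    rw [hW]
    simp only [mul_add, add_mul, smul_mul_assoc, mul_smul_comm, hPP, hQQ, hPQ, hQP, hPN, hNP,
      hNQ, hQN, hNN, smul_zero, add_zero, zero_add, smul_smul, smul_add]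
    module
  rw [e, smul_add, smul_add, smul_smul, smul_smul]
  have c1 : m * (ch + r) * ((ch * r + ch ^ 2 - 1) / (ch + r))
      = m * (ch * r + ch ^ 2 - 1) := by field_simp
  have c2 : m * (ch + r) * (nu / m * rho / (ch + r)) = nu * rho := by field_simp
  rw [c1, c2]
  module

noncomputable def rseq (ch : ℂ) : ℕ → ℂ
  | 0 => ch
  | (n + 1) => (ch * rseq ch n + ch ^ 2 - 1) / (ch + rseq ch n)
noncomputable def rhoseq (ch q : ℂ) : ℕ → ℂ
  | 0 => q
  | (n + 1) => q * rhoseq ch q n / (ch + rseq ch n)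

/-- `W^(n+1) = b • T(r_{n+1}, rho_{n+1})`, `b ≠ 0` (`q = nu/m`). -/
theorem pow_eq_TB {N P Q W : R} {m ch nu : ℂ} (hPP : P * P = P) (hQQ : Q * Q = Q)
    (hPQ : P * Q = 0) (hQP : Q * P = 0) (hPN : P * N = N) (hNP : N * P = N)
    (hNQ : N * Q = 0) (hQN : Q * N = 0)
    (hNN : N * N = (ch ^ 2 - 1) • P) (hW : W = m • (N + ch • P) + nu • Q)
    (hm : m ≠ 0) (n : ℕ) (hr : ∀ j < n, ch + rseq ch j ≠ 0) :
    ∃ b : ℂ, b ≠ 0 ∧ W ^ (n + 1) = b • TB N P Q (rseq ch n) (rhoseq ch (nu / m) n) := by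
  induction n with
  | zero =>
    refine ⟨m, hm, ?_⟩
    unfold TB rseq rhoseq
    rw [zero_add, pow_one, hW, smul_add, smul_add, smul_smul, smul_smul]
    have : m * (nu / m) = nu := by field_simp
    rw [this, smul_add, smul_smul]
  | succ n ih =>
    obtain ⟨b, hb, e⟩ := ih (fun j hj => hr j (Nat.lt_succ_of_lt hj))
    have hrn := hr n (Nat.lt_succ_self n)
    refine ⟨b * (m * (ch + rseq ch n)), mul_ne_zero hb (mul_ne_zero hm hrn), ?_⟩
    rw [pow_succ', e, mul_smul_comm,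
      mul_TB hPP hQQ hPQ hQP hPN hNP hNQ hQN hNN hW hm _ _ hrn, smul_smul]
    rfl
end B

end Pool.Agent.Helper32.C75
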