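import Pool.Agent.Helper42.CH.Pow

/-!
MP_c75db0 (row AM): invariant regions for the parameter sequence
`A_1 = 1, A_{m+1} = (A_m + t)/(1 + A_m)` (helper42's `powA t`).

Sector region, for `t` small in the (closed, slightly enlarged) first quadrant.
-/

set_option autoImplicit false
namespace Pool.Agent.Helper32.C75

open Pool.Agent.Helper42.CH

/-- truncated sector `0 ≤ b ≤ 2a`, `|A| ≤ α`, away from `0` on the scale `√|t|` -/
def Sec (t : ℂ) (α : ℝ) : Set ℂ :=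
  {A | 0 ≤ A.im ∧ A.im ≤ 2 * A.re ∧ 19 / 20 * (t.re + t.im) ≤ (A.re + A.im) ^ 2 ∧
    A.re ^ 2 + A.im ^ 2 ≤ α ^ 2}

theorem step_re (A t : ℂ) : ((A + t) / (1 + A)).re =
    ((A.re + t.re) * (1 + A.re) + (A.im + t.im) * A.im) / ((1 + A.re) ^ 2 + A.im ^ 2) := by
  rw [Complex.div_re, Complex.normSq_apply]
  simp only [Complex.add_re, Complex.add_im, Complex.one_re, Complex.one_im, zero_add]
  rw [← add_div]
  congr 1
  ring

theorem step_im (A t : ℂ) : ((A + t) / (1 + A)).im =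
    ((A.im + t.im) * (1 + A.re) - (A.re + t.re) * A.im) / ((1 + A.re) ^ 2 + A.im ^ 2) := by
  rw [Complex.div_im, Complex.normSq_apply]
  simp only [Complex.add_re, Complex.add_im, Complex.one_re, Complex.one_im, zero_add]
  rw [← sub_div]
  congr 1
  ring

theorem sec_c2 {a b t1 t2 : ℝ} (h2 : 0 ≤ t2) (h1 : -t2 / 100 ≤ t1)
    (ht2u : t2 ≤ 1 / 10) (hb : 0 ≤ b) (hr : b ≤ 2 * a)
    (hc : 19 / 20 * (t1 + t2) ≤ (a + b) ^ 2) (haa : a ≤ 1 / 3) (_ : b ≤ 1 / 3) :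
    (b + t2) * (1 + a) - (a + t1) * b ≤ 2 * ((a + t1) * (1 + a) + (b + t2) * b) := by
  have ha0 : 0 ≤ a := by linarith
  have hu : 0 ≤ 2 * a - b := by linarith
  have e : 2 * ((a + t1) * (1 + a) + (b + t2) * b) - ((b + t2) * (1 + a) - (a + t1) * b)
      = (2 * a - b) + 10 / 9 * (a + b) ^ 2 - 4 / 9 * ((a + b) * (2 * a - b))
        + 4 / 9 * (2 * a - b) ^ 2 + 2 * b * t2 + (t1 + t2 / 100) * (2 + 2 * a + b)
        - t2 / 100 * (2 + 2 * a + b) - t2 * (1 + a) := by ring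
  have k1 : (a + b) * (2 * a - b) ≤ 1 * (2 * a - b) :=
    mul_le_mul_of_nonneg_right (by linarith) hu
  have k2 : (t1 + t2 / 100) * 2 ≤ (t1 + t2 / 100) * (2 + 2 * a + b) :=
    mul_le_mul_of_nonneg_left (by linarith) (by linarith)
  have k3 : t2 * (2 * a - b) ≤ 1 / 10 * (2 * a - b) := mul_le_mul_of_nonneg_right ht2u hu
  have k4 : 0 ≤ t2 * a := mul_nonneg h2 ha0
  have k5 : 0 ≤ t2 * b := mul_nonneg h2 hb
  have k6 : 0 ≤ (2 * a - b) ^ 2 := sq_nonneg _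
  -- a = (2 b + u ... ) : a ≤ (2a - b) + (b)   and so on
  have k7 : t2 * a = (t2 * (2 * a - b) + t2 * b) / 2 := by ring
  nlinarith

theorem sec_c3 {a b t1 t2 : ℝ} (h2 : 0 ≤ t2) (h1 : -t2 / 100 ≤ t1) (hσu : t1 + t2 ≤ 1 / 10)
    (hb : 0 ≤ b) (hr : b ≤ 2 * a)
    (hc : 19 / 20 * (t1 + t2) ≤ (a + b) ^ 2) (haa : a ≤ 1 / 3) :
    19 / 20 * (t1 + t2) * ((1 + a) ^ 2 + b ^ 2) ^ 2 ≤
      (((a + t1) * (1 + a) + (b + t2) * b) + ((b + t2) * (1 + a) - (a + t1) * b)) ^ 2 := by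
  have ha0 : 0 ≤ a := by linarith
  have hσ0 : 0 ≤ t1 + t2 := by linarith
  set σ := t1 + t2 with hσ
  set s0 := Real.sqrt (19 / 20 * σ) with hs0
  have hs0n : 0 ≤ s0 := Real.sqrt_nonneg _
  have hs0q : s0 ^ 2 = 19 / 20 * σ := by
    rw [hs0, Real.sq_sqrt (by linarith)]
  have hs0u : s0 ≤ 1 / 3 := by
    apply abs_le_of_sq_le_sq' _ (by norm_num) |>.2
    rw [hs0q]; linarith
  have hs0uu : s0 ^ 2 ≤ 1 / 9 := by rw [hs0q]; linarith
  have hs : s0 ≤ a + b := by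
    apply abs_le_of_sq_le_sq' _ (by linarith) |>.2
    rw [hs0q]; exact hc
  have hσs : σ - s0 ^ 2 = s0 ^ 2 / 19 := by rw [hs0q]; ring
  have hσs' : σ = 20 / 19 * s0 ^ 2 := by rw [hs0q]; ring
  have hnum : s0 * ((1 + a) ^ 2 + b ^ 2) ≤
      ((a + t1) * (1 + a) + (b + t2) * b) + ((b + t2) * (1 + a) - (a + t1) * b) := by
    have e : ((a + t1) * (1 + a) + (b + t2) * b) + ((b + t2) * (1 + a) - (a + t1) * b)
        - s0 * ((1 + a) ^ 2 + b ^ 2)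
        = (a + b - s0) + ((a + b - s0) - b) ^ 2 + b ^ 2 + (σ - s0 ^ 2) + (σ - s0 ^ 2) * a
          - s0 * (a * ((a + b - s0) - b) + b ^ 2) + b * (2 * t2 - σ) := by
      rw [hσ]; ring
    obtain ⟨d, hdd⟩ : ∃ d, d = a + b - s0 := ⟨_, rfl⟩
    rw [← hdd, hσs] at e
    have hd : 0 ≤ d := by linarith
    have q1 : b * (2 * t2 - σ) ≥ -(b * (20 / 19 * s0 ^ 2)) := by
      have q0 : 0 ≤ b * t2 := mul_nonneg hb h2
      have : b * (2 * t2 - σ) = 2 * (b * t2) - b * σ := by ring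
      rw [← hσs', this]; linarith
    have q2 : s0 * (a * (d - b) + b ^ 2) ≤ 1 / 9 * d + 1 / 3 * b ^ 2 := by
      have q0 : 0 ≤ s0 * a * b := mul_nonneg (mul_nonneg hs0n ha0) hb
      have q3 : s0 * a ≤ 1 / 9 := by
        calc s0 * a ≤ 1 / 3 * (1 / 3) := mul_le_mul hs0u haa ha0 (by norm_num)
          _ = 1 / 9 := by norm_num
      have q3' : s0 * a * d ≤ 1 / 9 * d := mul_le_mul_of_nonneg_right q3 hd
      have q3'' : s0 * b ^ 2 ≤ 1 / 3 * b ^ 2 := mul_le_mul_of_nonneg_right hs0u (sq_nonneg b)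
      have : s0 * (a * (d - b) + b ^ 2) = s0 * a * d - s0 * a * b + s0 * b ^ 2 := by ring
      linarith
    have q4 : 0 ≤ s0 ^ 2 / 19 * a := by positivity
    have hkey : 0 ≤ d + (d - b) ^ 2 + b ^ 2 + s0 ^ 2 / 19 + s0 ^ 2 / 19 * a
        - s0 * (a * (d - b) + b ^ 2) + b * (2 * t2 - σ) := by
      rcases le_total d (b / 2) with h | h
      · have q5 : (b / 2) ^ 2 ≤ (b - d) ^ 2 :=
          pow_le_pow_left₀ (by linarith) (by linarith) 2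
        have q5' : (b - d) ^ 2 = (d - b) ^ 2 := by ring
        have q5'' : (b / 2) ^ 2 = b ^ 2 / 4 := by ring
        have q7 : b * (20 / 19 * s0 ^ 2) ≤ 20 / 57 * (b * s0) := by
          have : b * s0 * s0 ≤ b * s0 * (1 / 3) :=
            mul_le_mul_of_nonneg_left hs0u (mul_nonneg hb hs0n)
          have e2 : b * (20 / 19 * s0 ^ 2) = 20 / 19 * (b * s0 * s0) := by ring
          rw [e2]; linarith
        have q8 : 0 ≤ 1 / 19 * (s0 - 10 / 3 * b) ^ 2 := by positivity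
        have q9 : 1 / 19 * (s0 - 10 / 3 * b) ^ 2
            = s0 ^ 2 / 19 - 20 / 57 * (b * s0) + 100 / 171 * b ^ 2 := by ring
        have q10 : 0 ≤ b ^ 2 := sq_nonneg b
        linarith
      · have q6 : b * (20 / 19 * s0 ^ 2) ≤ 20 / 171 * b := by
          have : b * s0 ^ 2 ≤ b * (1 / 9) := mul_le_mul_of_nonneg_left hs0uu hb
          linarith
        have q7 : 0 ≤ (d - b) ^ 2 := sq_nonneg _
        have q8 : 0 ≤ b ^ 2 := sq_nonneg b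
        have q9 : 0 ≤ s0 ^ 2 := sq_nonneg s0
        linarith
    linarith
  have hD : 0 < (1 + a) ^ 2 + b ^ 2 := by positivity
  calc 19 / 20 * σ * ((1 + a) ^ 2 + b ^ 2) ^ 2 = (s0 * ((1 + a) ^ 2 + b ^ 2)) ^ 2 := by
        rw [mul_pow, hs0q]
    _ ≤ _ := by
        apply pow_le_pow_left₀ (by positivity) hnum

theorem sec_c4 {a b t1 t2 α : ℝ} (h2 : 0 ≤ t2) (ha : 0 < α)
    (ha' : α ≤ 1 / 3) (H1 : t1 + 2 * t2 ≤ 9 / 10 * α ^ 2) (H2 : t1 ^ 2 + t2 ^ 2 ≤ α ^ 3 / 12)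
    (hb : 0 ≤ b) (hr : b ≤ 2 * a) (hn : a ^ 2 + b ^ 2 ≤ α ^ 2) :
    (a + t1) ^ 2 + (b + t2) ^ 2 ≤ α ^ 2 * ((1 + a) ^ 2 + b ^ 2) := by
  have ha0 : 0 ≤ a := by linarith
  have hα2 : α ^ 2 ≤ 1 / 9 := by
    calc α ^ 2 ≤ (1 / 3) ^ 2 := pow_le_pow_left₀ ha.le ha' 2
      _ = 1 / 9 := by norm_num
  have e : α ^ 2 * ((1 + a) ^ 2 + b ^ 2) - ((a + t1) ^ 2 + (b + t2) ^ 2)
      = (α ^ 2 - (a ^ 2 + b ^ 2)) * (1 - α ^ 2) + 2 * (a * (α ^ 2 - t1)) - 2 * (b * t2)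
        - (t1 ^ 2 + t2 ^ 2) + α ^ 4 := by ring
  have kα : 0 ≤ α ^ 4 := by positivity
  have k1 : b * t2 ≤ 2 * a * t2 := mul_le_mul_of_nonneg_right hr h2
  have k2 : a * (1 / 10 * α ^ 2) ≤ a * (α ^ 2 - t1 - 2 * t2) :=
    mul_le_mul_of_nonneg_left (by linarith) ha0
  have k2' : a * (α ^ 2 - t1 - 2 * t2) = a * (α ^ 2 - t1) - 2 * a * t2 := by ring
  have k3 : 0 ≤ (α ^ 2 - (a ^ 2 + b ^ 2)) := by linarith
  have hα3 : 0 < α ^ 2 := by positivity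
  rcases le_total (5 / 12 * α) a with h | h
  · have k4 : 0 ≤ (α ^ 2 - (a ^ 2 + b ^ 2)) * (1 - α ^ 2) := by
      apply mul_nonneg k3; linarith
    have k5 : (5 / 12 * α) * α ^ 2 ≤ a * α ^ 2 := mul_le_mul_of_nonneg_right h hα3.le
    have k6 : α ^ 3 = α * α ^ 2 := by ring
    linarith
  · have k6 : a ^ 2 + b ^ 2 ≤ 125 / 144 * α ^ 2 := by
      have l1 : a ^ 2 ≤ (5 / 12 * α) ^ 2 := pow_le_pow_left₀ ha0 h 2
      have l2 : b ^ 2 ≤ (2 * a) ^ 2 := pow_le_pow_left₀ hb hr 2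
      have l3 : (5 / 12 * α) ^ 2 = 25 / 144 * α ^ 2 := by ring
      have l4 : (2 * a) ^ 2 = 4 * a ^ 2 := by ring
      linarith
    have k7 : 19 / 144 * α ^ 2 * (8 / 9) ≤ (α ^ 2 - (a ^ 2 + b ^ 2)) * (1 - α ^ 2) := by
      apply mul_le_mul (by linarith) (by linarith) (by norm_num) k3
    have k8 : α ^ 3 ≤ 1 / 3 * α ^ 2 := by
      have : α ^ 3 = α * α ^ 2 := by ring
      rw [this]; exact mul_le_mul_of_nonneg_right ha' hα3.le
    have k9 : 0 ≤ a * α ^ 2 := by positivity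
    linarith

/-- the sector is invariant -/
theorem sec_step {t A : ℂ} {α : ℝ} (h2 : 0 ≤ t.im) (h1 : -t.im / 100 ≤ t.re) (ha : 0 < α)
    (ha' : α ≤ 1 / 3) (H1 : t.re + 2 * t.im ≤ 9 / 10 * α ^ 2)
    (H2 : t.re ^ 2 + t.im ^ 2 ≤ α ^ 3 / 12) (hA : A ∈ Sec t α) : (A + t) / (1 + A) ∈ Sec t α := by
  obtain ⟨q1, q2, q3, q4⟩ := hA
  have ha0 : 0 ≤ A.re := by linarith
  have hα2 : α ^ 2 ≤ 1 / 9 := by
    calc α ^ 2 ≤ (1 / 3) ^ 2 := pow_le_pow_left₀ ha.le ha' 2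
      _ = 1 / 9 := by norm_num
  have haa : A.re ≤ 1 / 3 := by
    apply abs_le_of_sq_le_sq' _ (by norm_num) |>.2
    nlinarith [sq_nonneg A.im]
  have hbb : A.im ≤ 1 / 3 := by
    apply abs_le_of_sq_le_sq' _ (by norm_num) |>.2
    nlinarith [sq_nonneg A.re]
  have ht2u : t.im ≤ 1 / 10 := by linarith
  have ht1u : t.re ≤ 1 / 10 := by linarith
  have hσu : t.re + t.im ≤ 1 / 10 := by linarith
  have p1 : 0 ≤ (A.im + t.im) * (1 + A.re) - (A.re + t.re) * A.im := by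
    have e : (A.im + t.im) * (1 + A.re) - (A.re + t.re) * A.im
        = A.im * (1 - t.re) + t.im * (1 + A.re) := by ring
    rw [e]
    exact add_nonneg (mul_nonneg q1 (by linarith)) (mul_nonneg h2 (by linarith))
  have p2 := sec_c2 h2 h1 ht2u q1 q2 q3 haa hbb
  have p3 := sec_c3 h2 h1 hσu q1 q2 q3 haa
  have p4 := sec_c4 h2 ha ha' H1 H2 q1 q2 q4
  have hD : 0 < (1 + A.re) ^ 2 + A.im ^ 2 := by positivity
  refine ⟨?_, ?_, ?_, ?_⟩
  · rw [step_im]; exact div_nonneg p1 hD.le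
  · rw [step_im, step_re, ← mul_div_assoc]
    exact div_le_div_of_nonneg_right p2 hD.le
  · rw [step_im, step_re, ← add_div, div_pow, le_div_iff₀ (by positivity)]
    exact p3
  · rw [step_im, step_re, div_pow, div_pow, ← add_div, div_le_iff₀ (by positivity)]
    have e : ((A.re + t.re) * (1 + A.re) + (A.im + t.im) * A.im) ^ 2 +
        ((A.im + t.im) * (1 + A.re) - (A.re + t.re) * A.im) ^ 2
        = ((A.re + t.re) ^ 2 + (A.im + t.im) ^ 2) * ((1 + A.re) ^ 2 + A.im ^ 2) := by ring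
    rw [e]
    have : α ^ 2 * ((1 + A.re) ^ 2 + A.im ^ 2) ^ 2
        = (α ^ 2 * ((1 + A.re) ^ 2 + A.im ^ 2)) * ((1 + A.re) ^ 2 + A.im ^ 2) := by ring
    rw [this]
    exact mul_le_mul_of_nonneg_right p4 hD.le

/-- tail in the sector -/
theorem tail_sector {t : ℂ} {α : ℝ} (h2 : 0 ≤ t.im) (h1 : -t.im / 100 ≤ t.re) (ha : 0 < α)
    (ha' : α ≤ 1 / 3) (H1 : t.re + 2 * t.im ≤ 9 / 10 * α ^ 2)
    (H2 : t.re ^ 2 + t.im ^ 2 ≤ α ^ 3 / 12) {m0 : ℕ} (h0 : powA t m0 ∈ Sec t α) :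
    ∀ m, m0 ≤ m → powA t m ∈ Sec t α := by
  intro m hm
  induction m, hm using Nat.le_induction with
  | base => exact h0
  | succ m hm ih => exact sec_step h2 h1 ha ha' H1 H2 ih

end Pool.Agent.Helper32.C75
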