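import Pool.Agent.Helper32.C75.Sec

/-!
MP_c75db0 (row AM): kernel checked enclosures of the parameter sequence
`A_1 = 1, A_{m+1} = (A_m + t)/(1 + A_m)` (`powA t`, index `m - 1`) for all `t` in a disc, and all
`m ≥ m0` at once.  All numbers are natural numbers in the unit `1/UU`.
-/

set_option autoImplicit false
namespace Pool.Agent.Helper32.C75

open Pool.Agent.Helper42.CH

/-- the unit is `1 / UU` -/
def UU : ℕ := 16777216

theorem UU_pos : (0 : ℝ) < (UU : ℝ) := by norm_num [UU]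

/-- absolute difference -/
def ad (x y : ℕ) : ℕ := (x - y) + (y - x)

theorem ad_spec (x y : ℕ) : |(x : ℝ) - y| ≤ (ad x y : ℝ) := by
  unfold ad
  rcases le_total x y with h | h
  · have e : x - y = 0 := by omega
    rw [e, zero_add, Nat.cast_sub h, abs_sub_comm, abs_of_nonneg]
    have : (x : ℝ) ≤ y := by exact_mod_cast h
    linarith
  · have e : y - x = 0 := by omega
    rw [e, add_zero, Nat.cast_sub h, abs_of_nonneg]
    have : (y : ℝ) ≤ x := by exact_mod_cast h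
    linarith

/-- upper bound of the length of `(x, y)` -/
def len (x y : ℕ) : ℕ := if x ≤ y then y + x / 2 + 1 else x + y / 2 + 1

theorem nat_half (x : ℕ) : (x : ℝ) / 2 ≤ ((x / 2 : ℕ) : ℝ) + 1 := by
  have h : x ≤ 2 * (x / 2) + 1 := by omega
  have h' : (x : ℝ) ≤ 2 * ((x / 2 : ℕ) : ℝ) + 1 := by exact_mod_cast h
  linarith

theorem len_spec (x y : ℕ) : (x : ℝ) ^ 2 + (y : ℝ) ^ 2 ≤ (len x y : ℝ) ^ 2 := by
  have hx : (0 : ℝ) ≤ x := Nat.cast_nonneg x
  have hy : (0 : ℝ) ≤ y := Nat.cast_nonneg y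
  unfold len
  split_ifs with h
  · have h' : (x : ℝ) ≤ y := by exact_mod_cast h
    have k := nat_half x
    push_cast
    have k2 : (y : ℝ) + x / 2 ≤ y + ((x / 2 : ℕ) : ℝ) + 1 := by linarith
    calc (x : ℝ) ^ 2 + (y : ℝ) ^ 2 ≤ (y + x / 2) ^ 2 := by nlinarith
      _ ≤ _ := by
        exact pow_le_pow_left₀ (by positivity) k2 2
  · have h' : (y : ℝ) ≤ x := by
      have : y ≤ x := by omega
      exact_mod_cast this
    have k := nat_half y
    have k2 : (x : ℝ) + y / 2 ≤ x + ((y / 2 : ℕ) : ℝ) + 1 := by linarith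
    calc (x : ℝ) ^ 2 + (y : ℝ) ^ 2 ≤ (x + y / 2) ^ 2 := by nlinarith
      _ ≤ _ := by
        have := pow_le_pow_left₀ (by positivity) k2 2
        push_cast at this ⊢
        exact this

/-- the point with coordinates `a / UU, b / UU` -/
noncomputable def pt (a b : ℕ) : ℂ := ⟨(a : ℝ) / UU, (b : ℝ) / UU⟩

/-- lower bound for `|1 + c|` -/
def loP (a b : ℕ) : ℕ := (UU + a) + b * b / (2 * (UU + a) + b)
/-- upper bound for `|1 - c|` (if `a < UU`) -/
def upQ (a b : ℕ) : ℕ := (UU - a) + b * b / (2 * (UU - a)) + 1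
/-- the residual of `c' (1 + c) = c + t` -/
def resE (t1 t2 a b a' b' : ℕ) : ℕ :=
  ad ((a + t1) * UU + b' * b) (a' * (UU + a)) + ad ((b + t2) * UU) (b' * (UU + a) + a' * b)

theorem norm_le_of_sq {z : ℂ} {r : ℝ} (hr : 0 ≤ r) (h : z.re ^ 2 + z.im ^ 2 ≤ r ^ 2) :
    ‖z‖ ≤ r := by
  rw [Complex.norm_def, Complex.normSq_apply]
  apply Real.sqrt_le_iff.2 ⟨hr, ?_⟩
  nlinarith

theorem le_norm_of_sq {z : ℂ} {r : ℝ} (h : r ^ 2 ≤ z.re ^ 2 + z.im ^ 2) :
    r ≤ ‖z‖ := by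
  rw [Complex.norm_def, Complex.normSq_apply]
  apply Real.le_sqrt_of_sq_le
  nlinarith

theorem loP_spec (a b : ℕ) : (loP a b : ℝ) / UU ≤ ‖1 + pt a b‖ := by
  apply le_norm_of_sq
  have hU := UU_pos
  have e1 : (1 + pt a b).re = ((UU : ℝ) + a) / UU := by
    simp only [pt, Complex.add_re, Complex.one_re]; field_simp
  have e2 : (1 + pt a b).im = (b : ℝ) / UU := by
    simp only [pt, Complex.add_im, Complex.one_im, zero_add]
  rw [e1, e2, div_pow, div_pow, div_pow, ← add_div]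
  apply div_le_div_of_nonneg_right _ (by positivity)
  have hq : ((b * b / (2 * (UU + a) + b) : ℕ) : ℝ) * (2 * (UU + a) + b) ≤ b * b := by
    have := Nat.div_mul_le_self (b * b) (2 * (UU + a) + b)
    exact_mod_cast this
  obtain ⟨q, hqd⟩ : ∃ q : ℕ, q = b * b / (2 * (UU + a) + b) := ⟨_, rfl⟩
  have hqb : (q : ℝ) ≤ b := by
    have : b * b / (2 * (UU + a) + b) ≤ b := by
      rcases Nat.eq_zero_or_pos b with h | h
      · subst h; simp
      · calc b * b / (2 * (UU + a) + b) ≤ b * b / b :=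
            Nat.div_le_div_left (by omega) h
          _ = b := Nat.mul_div_cancel _ h
    rw [hqd]; exact_mod_cast this
  unfold loP
  rw [← hqd] at hq ⊢
  push_cast at hq ⊢
  have ha : (0 : ℝ) ≤ a := Nat.cast_nonneg a
  have hb : (0 : ℝ) ≤ b := Nat.cast_nonneg b
  have hq0 : (0 : ℝ) ≤ q := Nat.cast_nonneg q
  nlinarith [mul_le_mul_of_nonneg_left hqb hq0]

theorem upQ_spec (a b : ℕ) (h : a < UU) : ‖1 - pt a b‖ ≤ (upQ a b : ℝ) / UU := by
  have hU := UU_pos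
  apply norm_le_of_sq (by positivity)
  have e1 : (1 - pt a b).re = ((UU : ℝ) - a) / UU := by
    simp only [pt, Complex.sub_re, Complex.one_re]; field_simp
  have e2 : (1 - pt a b).im = -((b : ℝ) / UU) := by
    simp only [pt, Complex.sub_im, Complex.one_im, zero_sub]
  rw [e1, e2, neg_sq, div_pow, div_pow, div_pow, ← add_div]
  apply div_le_div_of_nonneg_right _ (by positivity)
  obtain ⟨Y, hY⟩ : ∃ Y : ℕ, Y = UU - a := ⟨_, rfl⟩
  have hYp : 0 < Y := by omega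
  have hYr : (Y : ℝ) = (UU : ℝ) - a := by rw [hY, Nat.cast_sub h.le]
  unfold upQ
  rw [← hYr, ← hY]
  have hq : (b * b : ℝ) ≤ (((b * b / (2 * Y) : ℕ) : ℝ) + 1) * (2 * Y) := by
    have := Nat.lt_div_mul_add (a := b * b) (b := 2 * Y) (by omega)
    have h3 : b * b ≤ (b * b / (2 * Y) + 1) * (2 * Y) := by
      rw [add_mul, one_mul]; exact this.le
    exact_mod_cast h3
  have hY0 : (0 : ℝ) < Y := by exact_mod_cast hYp
  push_cast at hq ⊢
  have h0 : (0 : ℝ) ≤ ((b * b / (2 * Y) : ℕ) : ℝ) := Nat.cast_nonneg _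
  nlinarith [sq_nonneg (((b * b / (2 * Y) : ℕ) : ℝ) + 1)]

theorem resE_spec (t1 t2 a b a' b' : ℕ) :
    ‖pt a b + pt t1 t2 - pt a' b' * (1 + pt a b)‖ ≤ (resE t1 t2 a b a' b' : ℝ) / UU ^ 2 := by
  have hU := UU_pos
  have hU' : (UU : ℝ) ≠ 0 := hU.ne'
  have e1 : (pt a b + pt t1 t2 - pt a' b' * (1 + pt a b)).re
      = (((a + t1) * UU + b' * b : ℕ) - ((a' * (UU + a) : ℕ) : ℝ)) / (UU : ℝ) ^ 2 := by
    simp only [pt, Complex.sub_re, Complex.add_re, Complex.mul_re, Complex.one_re, Complex.add_im,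
      Complex.one_im]
    push_cast
    field_simp
    ring
  have e2 : (pt a b + pt t1 t2 - pt a' b' * (1 + pt a b)).im
      = ((((b + t2) * UU : ℕ) : ℝ) - ((b' * (UU + a) + a' * b : ℕ) : ℝ)) / (UU : ℝ) ^ 2 := by
    simp only [pt, Complex.sub_im, Complex.add_im, Complex.mul_im, Complex.one_re, Complex.add_re,
      Complex.one_im]
    push_cast
    field_simp
    ring
  calc ‖pt a b + pt t1 t2 - pt a' b' * (1 + pt a b)‖
      ≤ |(pt a b + pt t1 t2 - pt a' b' * (1 + pt a b)).re|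
        + |(pt a b + pt t1 t2 - pt a' b' * (1 + pt a b)).im| := Complex.norm_le_abs_re_add_abs_im _
    _ ≤ (ad ((a + t1) * UU + b' * b) (a' * (UU + a)) : ℝ) / (UU : ℝ) ^ 2
        + (ad ((b + t2) * UU) (b' * (UU + a) + a' * b) : ℝ) / (UU : ℝ) ^ 2 := by
        rw [e1, e2, abs_div, abs_div, abs_of_pos (by positivity : (0:ℝ) < (UU : ℝ) ^ 2)]
        exact add_le_add
          (div_le_div_of_nonneg_right (ad_spec _ _) (by positivity))
          (div_le_div_of_nonneg_right (ad_spec _ _) (by positivity))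
    _ = _ := by
        unfold resE
        push_cast
        ring

/-- one step, abstract form -/
theorem step_disc {A t c tc c' : ℂ} {r δ P Q E : ℝ} (hA : ‖A - c‖ ≤ r) (ht : ‖t - tc‖ ≤ δ)
    (hP : P ≤ ‖1 + c‖) (hQ : ‖1 - c'‖ ≤ Q) (hE : ‖c + tc - c' * (1 + c)‖ ≤ E) (hr : r < P) :
    1 + A ≠ 0 ∧ ‖(A + t) / (1 + A) - c'‖ ≤ (r * Q + δ + E) / (P - r) := by
  have hPA : P - r ≤ ‖1 + A‖ := by
    have : ‖1 + c‖ ≤ ‖1 + A‖ + ‖A - c‖ := by
      have e : 1 + c = (1 + A) - (A - c) := by ring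
      rw [e]; exact norm_sub_le _ _
    linarith
  have hpos : 0 < ‖1 + A‖ := by linarith
  have hne : 1 + A ≠ 0 := norm_pos_iff.1 hpos
  refine ⟨hne, ?_⟩
  have e : (A + t) / (1 + A) - c' = ((A - c) * (1 - c') + (t - tc) + (c + tc - c' * (1 + c))) /
      (1 + A) := by
    field_simp; ring
  rw [e, norm_div]
  have hr0 : 0 ≤ r := le_trans (norm_nonneg _) hA
  have hQ0 : 0 ≤ Q := le_trans (norm_nonneg _) hQ
  have hnum : ‖(A - c) * (1 - c') + (t - tc) + (c + tc - c' * (1 + c))‖ ≤ r * Q + δ + E := by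
    calc _ ≤ ‖(A - c) * (1 - c')‖ + ‖t - tc‖ + ‖c + tc - c' * (1 + c)‖ := norm_add₃_le
      _ ≤ r * Q + δ + E := by
        rw [norm_mul]
        exact add_le_add (add_le_add (mul_le_mul hA hQ (norm_nonneg _) hr0) ht) hE
  exact div_le_div₀ (le_trans (norm_nonneg _) hnum) hnum (by linarith) hPA

/-- the next centre -/
def nxa (t1 t2 a b : ℕ) : ℕ :=
  ((a + t1) * (UU + a) + (b + t2) * b) * UU / ((UU + a) * (UU + a) + b * b)
def nxb (t1 t2 a b : ℕ) : ℕ :=
  ((b + t2) * (UU + a) - (a + t1) * b) * UU / ((UU + a) * (UU + a) + b * b)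
/-- the next radius for the centre `(a', b')` -/
def nxr (t1 t2 δ a b r a' b' : ℕ) : ℕ :=
  (r * upQ a' b' + δ * UU + resE t1 t2 a b a' b') / (loP a b - r) + 1

theorem nxr_spec {t A : ℂ} (t1 t2 δ a b r a' b' : ℕ) (ht : ‖t - pt t1 t2‖ ≤ (δ : ℝ) / UU)
    (hA : ‖A - pt a b‖ ≤ (r : ℝ) / UU) (hr : r < loP a b) (ha : a' < UU) :
    ‖(A + t) / (1 + A) - pt a' b'‖ ≤ (nxr t1 t2 δ a b r a' b' : ℝ) / UU := by
  have hU := UU_pos
  have hr' : (r : ℝ) / UU < (loP a b : ℝ) / UU := by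
    apply div_lt_div_of_pos_right _ hU
    exact_mod_cast hr
  obtain ⟨-, h⟩ := step_disc hA ht (loP_spec a b) (upQ_spec a' b' ha)
    (resE_spec t1 t2 a b a' b') hr'
  refine h.trans ?_
  have hPr : (0 : ℝ) < (loP a b : ℝ) - r := by
    have : (r : ℝ) < loP a b := by exact_mod_cast hr
    linarith
  have e : ((r : ℝ) / UU * ((upQ a' b' : ℝ) / UU) + (δ : ℝ) / UU +
      (resE t1 t2 a b a' b' : ℝ) / UU ^ 2) / ((loP a b : ℝ) / UU - (r : ℝ) / UU)
      = ((r * upQ a' b' + δ * UU + resE t1 t2 a b a' b' : ℕ) : ℝ) / ((loP a b : ℝ) - r) / UU := by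
    push_cast
    field_simp
  rw [e]
  apply div_le_div_of_nonneg_right _ hU.le
  rw [div_le_iff₀ hPr]
  unfold nxr
  obtain ⟨N, hN⟩ : ∃ N : ℕ, N = r * upQ a' b' + δ * UU + resE t1 t2 a b a' b' := ⟨_, rfl⟩
  obtain ⟨M, hM⟩ : ∃ M : ℕ, M = loP a b - r := ⟨_, rfl⟩
  have hMr : (M : ℝ) = (loP a b : ℝ) - r := by rw [hM, Nat.cast_sub hr.le]
  rw [← hN, ← hM, ← hMr]
  have := Nat.lt_div_mul_add (a := N) (b := M) (by omega)
  have h3 : N ≤ (N / M + 1) * M := by rw [add_mul, one_mul]; exact this.le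
  exact_mod_cast h3

/-! ### polygons -/

/-- twice the oriented area -/
def cr (p q : ℂ) : ℝ := p.re * q.im - p.im * q.re

/-- the point `A` is to the left of the edge `(x0,y0) → (x1,y1)` -/
def lft (e : (ℕ × ℕ) × (ℕ × ℕ)) (A : ℂ) : Prop :=
  0 ≤ cr (pt e.2.1 e.2.2 - pt e.1.1 e.1.2) (A - pt e.1.1 e.1.2)

/-- the disc `(a, b, r)` is to the left of the edge; `ax`: edges on the real axis are ignored -/
def edg (ax : Bool) (a b r : ℕ) (e : (ℕ × ℕ) × (ℕ × ℕ)) : Bool :=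
  (ax && Nat.beq e.1.2 0 && Nat.beq e.2.2 0 && Nat.ble e.1.1 e.2.1) ||
    Nat.ble (e.2.1 * e.1.2 + e.1.1 * b + e.2.2 * a + r * len (ad e.2.1 e.1.1) (ad e.2.2 e.1.2))
      (e.2.1 * b + e.1.1 * e.2.2 + e.1.2 * a)

theorem edg_spec {ax : Bool} {a b r : ℕ} {e : (ℕ × ℕ) × (ℕ × ℕ)} (h : edg ax a b r e = true)
    {A : ℂ} (hA : ‖A - pt a b‖ ≤ (r : ℝ) / UU) (hax : ax = true → 0 ≤ A.im) : lft e A := by
  obtain ⟨⟨x0, y0⟩, ⟨x1, y1⟩⟩ := e
  have hU := UU_pos
  unfold edg at h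
  simp only [Bool.or_eq_true, Bool.and_eq_true, Nat.beq_eq, Nat.ble_eq] at h
  unfold lft cr
  rcases h with ⟨⟨⟨h1, h2⟩, h3⟩, h4⟩ | h
  · subst h2 h3
    have := hax h1
    simp only [pt, Complex.sub_re, Complex.sub_im, Nat.cast_zero, zero_div, sub_zero, zero_mul]
    apply mul_nonneg _ this
    have : (x0 : ℝ) ≤ x1 := by exact_mod_cast h4
    rw [← sub_div]
    apply div_nonneg (by linarith) hU.le
  · -- real inequality
    have h' : ((x1 * y0 + x0 * b + y1 * a + r * len (ad x1 x0) (ad y1 y0) : ℕ) : ℝ) ≤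
        ((x1 * b + x0 * y1 + y0 * a : ℕ) : ℝ) := by exact_mod_cast h
    push_cast at h'
    set L : ℝ := (len (ad x1 x0) (ad y1 y0) : ℝ) with hL
    have hL0 : 0 ≤ L := Nat.cast_nonneg _
    have hlen : ‖pt x1 y1 - pt x0 y0‖ ≤ L / UU := by
      apply norm_le_of_sq (by positivity)
      have e1 : (pt x1 y1 - pt x0 y0).re = ((x1 : ℝ) - x0) / UU := by
        simp only [pt, Complex.sub_re]; rw [sub_div]
      have e2 : (pt x1 y1 - pt x0 y0).im = ((y1 : ℝ) - y0) / UU := by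
        simp only [pt, Complex.sub_im]; rw [sub_div]
      rw [e1, e2, div_pow, div_pow, div_pow, ← add_div]
      apply div_le_div_of_nonneg_right _ (by positivity)
      refine le_trans ?_ (len_spec (ad x1 x0) (ad y1 y0))
      have k1 := ad_spec x1 x0
      have k2 := ad_spec y1 y0
      have k3 : ((x1 : ℝ) - x0) ^ 2 ≤ (ad x1 x0 : ℝ) ^ 2 := sq_le_sq' (by
        have := neg_abs_le ((x1 : ℝ) - x0); linarith) (le_trans (le_abs_self _) k1)
      have k4 : ((y1 : ℝ) - y0) ^ 2 ≤ (ad y1 y0 : ℝ) ^ 2 := sq_le_sq' (by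
        have := neg_abs_le ((y1 : ℝ) - y0); linarith) (le_trans (le_abs_self _) k2)
      linarith
    -- the product term
    set p := pt x1 y1 - pt x0 y0 with hp
    have hcr : -(L / UU * ((r : ℝ) / UU)) ≤ p.re * (A - pt a b).im - p.im * (A - pt a b).re := by
      have h1 : p.re * (A - pt a b).im - p.im * (A - pt a b).re
          = ((starRingEnd ℂ) p * (A - pt a b)).im := by
        rw [Complex.mul_im, Complex.conj_re, Complex.conj_im]; ring
      rw [h1]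
      have h2 : |((starRingEnd ℂ) p * (A - pt a b)).im| ≤ ‖(starRingEnd ℂ) p * (A - pt a b)‖ :=
        Complex.abs_im_le_norm _
      have h3 : ‖(starRingEnd ℂ) p * (A - pt a b)‖ ≤ L / UU * ((r : ℝ) / UU) := by
        rw [norm_mul, Complex.norm_conj]
        exact mul_le_mul hlen hA (norm_nonneg _) (by positivity)
      have h4 := neg_abs_le (((starRingEnd ℂ) p * (A - pt a b)).im)
      linarith
    have hc : p.re * (pt a b - pt x0 y0).im - p.im * (pt a b - pt x0 y0).re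
        = ((x1 * b + x0 * y1 + y0 * a) - (x1 * y0 + x0 * b + y1 * a)) / (UU : ℝ) ^ 2 := by
      rw [hp]
      simp only [pt, Complex.sub_re, Complex.sub_im]
      field_simp
      ring
    have hsum : p.re * (A - pt x0 y0).im - p.im * (A - pt x0 y0).re
        = (p.re * (pt a b - pt x0 y0).im - p.im * (pt a b - pt x0 y0).re)
          + (p.re * (A - pt a b).im - p.im * (A - pt a b).re) := by
      simp only [Complex.sub_re, Complex.sub_im]; ring
    rw [hsum, hc]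
    have h5 : L / UU * ((r : ℝ) / UU) = (r * L) / (UU : ℝ) ^ 2 := by field_simp
    have h6 : (r * L) / (UU : ℝ) ^ 2 ≤
        ((x1 * b + x0 * y1 + y0 * a) - (x1 * y0 + x0 * b + y1 * a)) / (UU : ℝ) ^ 2 := by
      apply div_le_div_of_nonneg_right _ (by positivity)
      linarith
    linarith

/-- the disc is inside one of the polygons -/
def inP (ax : Bool) (a b r : ℕ) (P : List (List ((ℕ × ℕ) × (ℕ × ℕ)))) : Bool :=
  P.any fun es => es.all (edg ax a b r)

theorem inP_spec {ax : Bool} {a b r : ℕ} {P : List (List ((ℕ × ℕ) × (ℕ × ℕ)))}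
    (h : inP ax a b r P = true) {A : ℂ} (hA : ‖A - pt a b‖ ≤ (r : ℝ) / UU)
    (hax : ax = true → 0 ≤ A.im) : ∃ es ∈ P, ∀ e ∈ es, lft e A := by
  unfold inP at h
  rw [List.any_eq_true] at h
  obtain ⟨es, hes, h2⟩ := h
  rw [List.all_eq_true] at h2
  exact ⟨es, hes, fun e he => edg_spec (h2 e he) hA hax⟩

/-! ### the checker -/

/-- the trap around `(u, v)` of radius `R` -/
def trp (t1 t2 δ u v R : ℕ) : Bool :=
  Nat.ble (R * upQ u v + δ * UU + resE t1 t2 u v u v) (R * (loP u v - R)) && Nat.blt u UU &&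
    Nat.blt R (loP u v)

/-- `n` guarded steps from the disc `(a, b, r)`, then the trap -/
def run (ax : Bool) (P : List (List ((ℕ × ℕ) × (ℕ × ℕ)))) (t1 t2 δ u v R : ℕ) :
    ℕ → ℕ → ℕ → ℕ → Bool
  | 0, a, b, r => Nat.ble (len (ad a u) (ad b v) + r) R
  | n + 1, a, b, r =>
    inP ax a b r P && Nat.blt r (loP a b) && Nat.blt (nxa t1 t2 a b) UU &&
      run ax P t1 t2 δ u v R n (nxa t1 t2 a b) (nxb t1 t2 a b)
        (nxr t1 t2 δ a b r (nxa t1 t2 a b) (nxb t1 t2 a b))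

/-- `k` unguarded steps, then `run` -/
def pre (ax : Bool) (P : List (List ((ℕ × ℕ) × (ℕ × ℕ)))) (t1 t2 δ u v R n : ℕ) :
    ℕ → ℕ → ℕ → ℕ → Bool
  | 0, a, b, r => run ax P t1 t2 δ u v R n a b r
  | k + 1, a, b, r =>
    Nat.blt r (loP a b) && Nat.blt (nxa t1 t2 a b) UU &&
      pre ax P t1 t2 δ u v R n k (nxa t1 t2 a b) (nxb t1 t2 a b)
        (nxr t1 t2 δ a b r (nxa t1 t2 a b) (nxb t1 t2 a b))

/-- `powA t i`, `i ≥ i0`, stays in the union of the polygons `P`, for all `t` in the disc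
`(t1, t2, δ)`; `n` steps are followed, then the trap `(u, v, R)` -/
def tailCheck (ax : Bool) (P : List (List ((ℕ × ℕ) × (ℕ × ℕ)))) (t1 t2 δ i0 n u v R : ℕ) : Bool :=
  trp t1 t2 δ u v R && inP ax u v R P && pre ax P t1 t2 δ u v R n i0 UU 0 0

theorem dist_le {A : ℂ} {a b u v r R : ℕ} (hA : ‖A - pt a b‖ ≤ (r : ℝ) / UU)
    (h : len (ad a u) (ad b v) + r ≤ R) : ‖A - pt u v‖ ≤ (R : ℝ) / UU := by
  have hU := UU_pos
  have h1 : ‖pt a b - pt u v‖ ≤ (len (ad a u) (ad b v) : ℝ) / UU := by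
    apply norm_le_of_sq (by positivity)
    have e1 : (pt a b - pt u v).re = ((a : ℝ) - u) / UU := by
      simp only [pt, Complex.sub_re]; rw [sub_div]
    have e2 : (pt a b - pt u v).im = ((b : ℝ) - v) / UU := by
      simp only [pt, Complex.sub_im]; rw [sub_div]
    rw [e1, e2, div_pow, div_pow, div_pow, ← add_div]
    apply div_le_div_of_nonneg_right _ (by positivity)
    refine le_trans ?_ (len_spec (ad a u) (ad b v))
    have k1 := ad_spec a u
    have k2 := ad_spec b v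
    have k3 : ((a : ℝ) - u) ^ 2 ≤ (ad a u : ℝ) ^ 2 := sq_le_sq' (by
      have := neg_abs_le ((a : ℝ) - u); linarith) (le_trans (le_abs_self _) k1)
    have k4 : ((b : ℝ) - v) ^ 2 ≤ (ad b v : ℝ) ^ 2 := sq_le_sq' (by
      have := neg_abs_le ((b : ℝ) - v); linarith) (le_trans (le_abs_self _) k2)
    linarith
  have h2 : ‖A - pt u v‖ ≤ ‖A - pt a b‖ + ‖pt a b - pt u v‖ := by
    have e : A - pt u v = (A - pt a b) + (pt a b - pt u v) := by ring
    rw [e]; exact norm_add_le _ _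
  have h3 : ((len (ad a u) (ad b v) : ℝ) + r) / UU ≤ (R : ℝ) / UU := by
    apply div_le_div_of_nonneg_right _ hU.le
    exact_mod_cast h
  rw [add_div] at h3
  linarith

theorem trp_spec {t A : ℂ} {t1 t2 δ u v R : ℕ} (h : trp t1 t2 δ u v R = true)
    (ht : ‖t - pt t1 t2‖ ≤ (δ : ℝ) / UU) (hA : ‖A - pt u v‖ ≤ (R : ℝ) / UU) :
    ‖(A + t) / (1 + A) - pt u v‖ ≤ (R : ℝ) / UU := by
  have hU := UU_pos
  unfold trp at h
  simp only [Bool.and_eq_true, Nat.ble_eq, Nat.blt_eq] at h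
  obtain ⟨⟨h1, h2⟩, h3⟩ := h
  have hr' : (R : ℝ) / UU < (loP u v : ℝ) / UU := by
    apply div_lt_div_of_pos_right _ hU
    exact_mod_cast h3
  obtain ⟨-, h⟩ := step_disc hA ht (loP_spec u v) (upQ_spec u v h2)
    (resE_spec t1 t2 u v u v) hr'
  refine h.trans ?_
  have hPr : (0 : ℝ) < (loP u v : ℝ) - R := by
    have : (R : ℝ) < loP u v := by exact_mod_cast h3
    linarith
  have e : ((R : ℝ) / UU * ((upQ u v : ℝ) / UU) + (δ : ℝ) / UU +
      (resE t1 t2 u v u v : ℝ) / UU ^ 2) / ((loP u v : ℝ) / UU - (R : ℝ) / UU)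
      = ((R * upQ u v + δ * UU + resE t1 t2 u v u v : ℕ) : ℝ) / ((loP u v : ℝ) - R) / UU := by
    push_cast
    field_simp
  rw [e]
  apply div_le_div_of_nonneg_right _ hU.le
  rw [div_le_iff₀ hPr, ← Nat.cast_sub h3.le]
  exact_mod_cast h1

theorem trap_all {t : ℂ} {t1 t2 δ u v R : ℕ} (h : trp t1 t2 δ u v R = true)
    (ht : ‖t - pt t1 t2‖ ≤ (δ : ℝ) / UU) {i0 : ℕ}
    (h0 : ‖powA t i0 - pt u v‖ ≤ (R : ℝ) / UU) :
    ∀ i, i0 ≤ i → ‖powA t i - pt u v‖ ≤ (R : ℝ) / UU := by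
  intro i hi
  induction i, hi using Nat.le_induction with
  | base => exact h0
  | succ m hm ih => exact trp_spec h ht ih

theorem run_spec {ax : Bool} {P : List (List ((ℕ × ℕ) × (ℕ × ℕ)))} {t : ℂ}
    {t1 t2 δ u v R : ℕ} (ht : ‖t - pt t1 t2‖ ≤ (δ : ℝ) / UU)
    (htr : trp t1 t2 δ u v R = true) (hP : inP ax u v R P = true)
    (hax : ax = true → ∀ i, 0 ≤ (powA t i).im) :
    ∀ (n a b r i0 : ℕ), run ax P t1 t2 δ u v R n a b r = true →
      ‖powA t i0 - pt a b‖ ≤ (r : ℝ) / UU →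
      ∀ i, i0 ≤ i → ∃ es ∈ P, ∀ e ∈ es, lft e (powA t i) := by
  intro n
  induction n with
  | zero =>
    intro a b r i0 h hA i hi
    unfold run at h
    rw [Nat.ble_eq] at h
    have h2 := trap_all htr ht (dist_le hA h) i hi
    exact inP_spec hP h2 (fun q => hax q i)
  | succ n ih =>
    intro a b r i0 h hA i hi
    unfold run at h
    simp only [Bool.and_eq_true, Nat.blt_eq] at h
    obtain ⟨⟨⟨h1, h2⟩, h3⟩, h4⟩ := h
    rcases Nat.eq_or_lt_of_le hi with he | hl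
    · rw [← he]; exact inP_spec h1 hA (fun q => hax q i0)
    · have hstep := nxr_spec t1 t2 δ a b r (nxa t1 t2 a b) (nxb t1 t2 a b) ht hA h2 h3
      exact ih _ _ _ (i0 + 1) h4 hstep i hl

theorem pre_spec {ax : Bool} {P : List (List ((ℕ × ℕ) × (ℕ × ℕ)))} {t : ℂ}
    {t1 t2 δ u v R : ℕ} (ht : ‖t - pt t1 t2‖ ≤ (δ : ℝ) / UU)
    (htr : trp t1 t2 δ u v R = true) (hP : inP ax u v R P = true)
    (hax : ax = true → ∀ i, 0 ≤ (powA t i).im) (n : ℕ) :
    ∀ (k a b r j0 : ℕ), pre ax P t1 t2 δ u v R n k a b r = true →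
      ‖powA t j0 - pt a b‖ ≤ (r : ℝ) / UU →
      ∀ i, j0 + k ≤ i → ∃ es ∈ P, ∀ e ∈ es, lft e (powA t i) := by
  intro k
  induction k with
  | zero =>
    intro a b r j0 h hA i hi
    unfold pre at h
    exact run_spec ht htr hP hax n a b r j0 h hA i hi
  | succ k ih =>
    intro a b r j0 h hA i hi
    unfold pre at h
    simp only [Bool.and_eq_true, Nat.blt_eq] at h
    obtain ⟨⟨h2, h3⟩, h4⟩ := h
    have hstep := nxr_spec t1 t2 δ a b r (nxa t1 t2 a b) (nxb t1 t2 a b) ht hA h2 h3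
    exact ih _ _ _ (j0 + 1) h4 hstep i (by omega)

/-- SOUNDNESS of `tailCheck` -/
theorem tail_sound {ax : Bool} {P : List (List ((ℕ × ℕ) × (ℕ × ℕ)))} {t : ℂ}
    {t1 t2 δ i0 n u v R : ℕ} (h : tailCheck ax P t1 t2 δ i0 n u v R = true)
    (ht : ‖t - pt t1 t2‖ ≤ (δ : ℝ) / UU) (hax : ax = true → ∀ i, 0 ≤ (powA t i).im) :
    ∀ i, i0 ≤ i → ∃ es ∈ P, ∀ e ∈ es, lft e (powA t i) := by
  unfold tailCheck at h
  simp only [Bool.and_eq_true] at h
  obtain ⟨⟨h1, h2⟩, h3⟩ := h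
  intro i hi
  refine pre_spec ht h1 h2 hax n i0 UU 0 0 0 h3 ?_ i (by omega)
  have : powA t 0 - pt UU 0 = 0 := by
    have hU := UU_pos.ne'
    apply Complex.ext
    · simp [powA, pt, div_self hU]
    · simp [powA, pt]
  rw [this]; simp

end Pool.Agent.Helper32.C75
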