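import Pool.Agent.Helper32.C75.Tail

/-!
MP_c75db0 (row AM): sector near `t = 0`, weights for points of triangles and quadrilaterals,
conjugation.
-/

set_option autoImplicit false
namespace Pool.Agent.Helper32.C75

open Pool.Agent.Helper42.CH

/-- the first quadrant is preserved -/
theorem powA_im {t : ℂ} (h1 : 0 ≤ t.im) (h2 : t.re ≤ 1) (hq : t.im ^ 2 ≤ 4 * t.re) (i : ℕ) :
    0 ≤ (powA t i).im := by
  induction i with
  | zero => simp [powA]
  | succ m ih =>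
    have hre := powA_re hq m
    simp only [powA]
    rw [step_im]
    apply div_nonneg _ (by positivity)
    have e : ((powA t m).im + t.im) * (1 + (powA t m).re) -
        ((powA t m).re + t.re) * (powA t m).im
        = (powA t m).im * (1 - t.re) + t.im * (1 + (powA t m).re) := by ring
    rw [e]
    exact add_nonneg (mul_nonneg ih (by linarith)) (mul_nonneg h1 (by linarith))

/-- conjugation -/
theorem powA_conj (t : ℂ) (i : ℕ) :
    powA ((starRingEnd ℂ) t) i = (starRingEnd ℂ) (powA t i) := by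
  induction i with
  | zero => simp [powA]
  | succ m ih => simp only [powA]; rw [ih]; simp

/-! ### weights -/

theorem cr_add_tri (p q r a : ℂ) :
    cr (q - p) (a - p) + cr (r - q) (a - q) + cr (p - r) (a - r) = cr (q - p) (r - p) := by
  simp only [cr, Complex.sub_re, Complex.sub_im]; ring

theorem tri_weights {p q r a : ℂ} (h1 : 0 ≤ cr (q - p) (a - p)) (h2 : 0 ≤ cr (r - q) (a - q))
    (h3 : 0 ≤ cr (p - r) (a - r)) (hS : 0 < cr (q - p) (r - p)) :
    ∃ w1 w2 w3 : ℝ, 0 ≤ w1 ∧ 0 ≤ w2 ∧ 0 ≤ w3 ∧ w1 + w2 + w3 = 1 ∧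
      a = (w1 : ℂ) * p + (w2 : ℂ) * q + (w3 : ℂ) * r := by
  set S := cr (q - p) (r - p) with hSd
  refine ⟨cr (r - q) (a - q) / S, cr (p - r) (a - r) / S, cr (q - p) (a - p) / S,
    div_nonneg h2 hS.le, div_nonneg h3 hS.le, div_nonneg h1 hS.le, ?_, ?_⟩
  · rw [← add_div, ← add_div, div_eq_one_iff_eq hS.ne', hSd, ← cr_add_tri p q r a]; ring
  · have hS' : S ≠ 0 := hS.ne'
    apply Complex.ext
    · simp only [Complex.add_re, Complex.mul_re, Complex.ofReal_re, Complex.ofReal_im, zero_mul,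
        sub_zero]
      field_simp
      rw [hSd]
      simp only [cr, Complex.sub_re, Complex.sub_im]
      ring
    · simp only [Complex.add_im, Complex.mul_im, Complex.ofReal_re, Complex.ofReal_im, zero_mul,
        add_zero]
      field_simp
      rw [hSd]
      simp only [cr, Complex.sub_re, Complex.sub_im]
      ring

theorem quad_weights {p q r s a : ℂ} (h1 : 0 ≤ cr (q - p) (a - p)) (h2 : 0 ≤ cr (r - q) (a - q))
    (h3 : 0 ≤ cr (s - r) (a - r)) (h4 : 0 ≤ cr (p - s) (a - s)) (hS : 0 < cr (q - p) (r - p))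
    (hT : 0 < cr (r - p) (s - p)) :
    ∃ w1 w2 w3 w4 : ℝ, 0 ≤ w1 ∧ 0 ≤ w2 ∧ 0 ≤ w3 ∧ 0 ≤ w4 ∧ w1 + w2 + w3 + w4 = 1 ∧
      a = (w1 : ℂ) * p + (w2 : ℂ) * q + (w3 : ℂ) * r + (w4 : ℂ) * s := by
  rcases le_total 0 (cr (r - p) (a - p)) with h | h
  · obtain ⟨w1, w2, w3, k1, k2, k3, k4, k5⟩ := tri_weights h h3 h4 hT
    exact ⟨w1, 0, w2, w3, k1, le_rfl, k2, k3, by linarith, by rw [k5]; push_cast; ring⟩
  · have h' : 0 ≤ cr (p - r) (a - r) := by
      have : cr (p - r) (a - r) = -cr (r - p) (a - p) := by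
        simp only [cr, Complex.sub_re, Complex.sub_im]; ring
      rw [this]; linarith
    obtain ⟨w1, w2, w3, k1, k2, k3, k4, k5⟩ := tri_weights h1 h2 h' hS
    exact ⟨w1, w2, w3, 0, k1, k2, k3, le_rfl, by linarith, by rw [k5]; push_cast; ring⟩

/-- the edges of a closed polygon -/
def edges : List (ℕ × ℕ) → List ((ℕ × ℕ) × (ℕ × ℕ))
  | [] => []
  | v :: vs => List.zip (v :: vs) (vs ++ [v])

/-- twice the oriented area of a triangle is positive -/
def pos3 (p q r : ℕ × ℕ) : Bool :=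
  Nat.blt (q.1 * p.2 + p.1 * r.2 + q.2 * r.1) (q.1 * r.2 + p.1 * q.2 + p.2 * r.1)

theorem pos3_spec {p q r : ℕ × ℕ} (h : pos3 p q r = true) :
    0 < cr (pt q.1 q.2 - pt p.1 p.2) (pt r.1 r.2 - pt p.1 p.2) := by
  unfold pos3 at h
  rw [Nat.blt_eq] at h
  have hU := UU_pos
  have h' : ((q.1 * p.2 + p.1 * r.2 + q.2 * r.1 : ℕ) : ℝ) <
      ((q.1 * r.2 + p.1 * q.2 + p.2 * r.1 : ℕ) : ℝ) := by exact_mod_cast h
  push_cast at h'
  have e : cr (pt q.1 q.2 - pt p.1 p.2) (pt r.1 r.2 - pt p.1 p.2)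
      = ((q.1 * r.2 + p.1 * q.2 + p.2 * r.1) - (q.1 * p.2 + p.1 * r.2 + q.2 * r.1))
        / (UU : ℝ) ^ 2 := by
    simp only [cr, pt, Complex.sub_re, Complex.sub_im]
    field_simp
    ring
  rw [e]
  apply div_pos _ (by positivity)
  linarith

/-- a closed triangle or quadrilateral with positive orientation -/
def okV : List (ℕ × ℕ) → Bool
  | [p, q, r] => pos3 p q r
  | [p, q, r, s] => pos3 p q r && pos3 p r s
  | _ => false

/-- weights for the vertices of the list -/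
def InHull (V : List (ℕ × ℕ)) (a : ℂ) : Prop :=
  ∃ w : Fin V.length → ℝ, (∀ i, 0 ≤ w i) ∧ ∑ i, w i = 1 ∧
    a = ∑ i, (w i : ℂ) * pt (V.get i).1 (V.get i).2

theorem hull_of_lft {V : List (ℕ × ℕ)} (hV : okV V = true) {a : ℂ}
    (h : ∀ e ∈ edges V, lft e a) : InHull V a := by
  match V, hV with
  | [p, q, r], hV =>
    have hS := pos3_spec hV
    have h1 := h (p, q) (by simp [edges])
    have h2 := h (q, r) (by simp [edges])
    have h3 := h (r, p) (by simp [edges])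
    obtain ⟨w1, w2, w3, k1, k2, k3, k4, k5⟩ := tri_weights h1 h2 h3 hS
    refine ⟨![w1, w2, w3], ?_, ?_, ?_⟩
    · intro i; fin_cases i
      · exact k1
      · exact k2
      · exact k3
    · simp [Fin.sum_univ_succ]; linarith
    · rw [k5]; simp [Fin.sum_univ_succ]; ring
  | [p, q, r, s], hV =>
    simp only [okV, Bool.and_eq_true] at hV
    have hS := pos3_spec hV.1
    have hT := pos3_spec hV.2
    have h1 := h (p, q) (by simp [edges])
    have h2 := h (q, r) (by simp [edges])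
    have h3 := h (r, s) (by simp [edges])
    have h4 := h (s, p) (by simp [edges])
    obtain ⟨w1, w2, w3, w4, k1, k2, k3, k4, k5, k6⟩ := quad_weights h1 h2 h3 h4 hS hT
    refine ⟨![w1, w2, w3, w4], ?_, ?_, ?_⟩
    · intro i; fin_cases i
      · exact k1
      · exact k2
      · exact k3
      · exact k4
    · simp [Fin.sum_univ_succ]; linarith
    · rw [k6]; simp [Fin.sum_univ_succ]; ring

/-- FINAL FORM (disc of `t`): all `powA t i`, `i ≥ i0`, are convex combinations of the vertices of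
one of the polygons -/
theorem tail_hull {ax : Bool} {Vs : List (List (ℕ × ℕ))} (hV : Vs.all okV = true) {t : ℂ}
    {t1 t2 δ i0 n u v R : ℕ} (h : tailCheck ax (Vs.map edges) t1 t2 δ i0 n u v R = true)
    (ht : ‖t - pt t1 t2‖ ≤ (δ : ℝ) / UU) (hax : ax = true → ∀ i, 0 ≤ (powA t i).im) (i : ℕ)
    (hi : i0 ≤ i) : ∃ V ∈ Vs, InHull V (powA t i) := by
  obtain ⟨es, hes, h2⟩ := tail_sound h ht hax i hi
  rw [List.mem_map] at hes
  obtain ⟨V, hVm, rfl⟩ := hes
  rw [List.all_eq_true] at hV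
  exact ⟨V, hVm, hull_of_lft (hV V hVm) h2⟩

/-! ### the sector -/

/-- bounds for one index over a disc of `t`: `k` guarded steps -/
def enc (t1 t2 δ : ℕ) : ℕ → ℕ → ℕ → ℕ → Option (ℕ × ℕ × ℕ)
  | 0, a, b, r => some (a, b, r)
  | k + 1, a, b, r =>
    bif Nat.blt r (loP a b) && Nat.blt (nxa t1 t2 a b) UU && Nat.ble r a then
      enc t1 t2 δ k (nxa t1 t2 a b) (nxb t1 t2 a b)
        (nxr t1 t2 δ a b r (nxa t1 t2 a b) (nxb t1 t2 a b))
    else none

theorem enc_spec {t : ℂ} {t1 t2 δ : ℕ} (ht : ‖t - pt t1 t2‖ ≤ (δ : ℝ) / UU) :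
    ∀ (k a b r j0 a' b' r' : ℕ), enc t1 t2 δ k a b r = some (a', b', r') →
      ‖powA t j0 - pt a b‖ ≤ (r : ℝ) / UU → ‖powA t (j0 + k) - pt a' b'‖ ≤ (r' : ℝ) / UU := by
  intro k
  induction k with
  | zero =>
    intro a b r j0 a' b' r' h hA
    simp only [enc, Option.some.injEq, Prod.mk.injEq] at h
    obtain ⟨rfl, rfl, rfl⟩ := h
    exact hA
  | succ k ih =>
    intro a b r j0 a' b' r' h hA
    unfold enc at h
    rw [cond_eq_ite] at h
    split_ifs at h with hc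
    simp only [Bool.and_eq_true, Nat.blt_eq] at hc
    have hstep := nxr_spec t1 t2 δ a b r (nxa t1 t2 a b) (nxb t1 t2 a b) ht hA hc.1.1 hc.1.2
    have := ih _ _ _ (j0 + 1) _ _ _ h hstep
    rw [show j0 + (k + 1) = j0 + 1 + k by omega]
    exact this

theorem enc_one {t : ℂ} {t1 t2 δ : ℕ} (ht : ‖t - pt t1 t2‖ ≤ (δ : ℝ) / UU) {k a' b' r' : ℕ}
    (h : enc t1 t2 δ k UU 0 0 = some (a', b', r')) : ‖powA t k - pt a' b'‖ ≤ (r' : ℝ) / UU := by
  have h0 : ‖powA t 0 - pt UU 0‖ ≤ ((0 : ℕ) : ℝ) / UU := by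
    have : powA t 0 - pt UU 0 = 0 := by
      have hU := UU_pos.ne'
      apply Complex.ext
      · simp [powA, pt, div_self hU]
      · simp [powA, pt]
    rw [this]; simp
  have := enc_spec ht k UU 0 0 0 a' b' r' h h0
  rwa [zero_add] at this

theorem re_nonneg_of_disc {A : ℂ} {a b r : ℕ} (h : ‖A - pt a b‖ ≤ (r : ℝ) / UU) (hr : r ≤ a) :
    0 ≤ A.re := by
  have hU := UU_pos
  have h1 := (Complex.abs_re_le_norm (A - pt a b)).trans h
  simp only [Complex.sub_re, pt] at h1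
  rw [abs_le] at h1
  have h2 : (r : ℝ) / UU ≤ (a : ℝ) / UU := by
    apply div_le_div_of_nonneg_right _ hU.le
    exact_mod_cast hr
  linarith [h1.1]

theorem im_step {t A : ℂ} (h1 : 0 ≤ t.im) (h2 : t.re ≤ 1) (hre : 0 ≤ A.re) (him : 0 ≤ A.im) :
    0 ≤ ((A + t) / (1 + A)).im := by
  rw [step_im]
  apply div_nonneg _ (by positivity)
  have e : (A.im + t.im) * (1 + A.re) - (A.re + t.re) * A.im
      = A.im * (1 - t.re) + t.im * (1 + A.re) := by ring
  rw [e]
  exact add_nonneg (mul_nonneg him (by linarith)) (mul_nonneg h1 (by linarith))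

theorem enc_im {t : ℂ} {t1 t2 δ : ℕ} (ht : ‖t - pt t1 t2‖ ≤ (δ : ℝ) / UU) (hi : 0 ≤ t.im)
    (hre : t.re ≤ 1) :
    ∀ (k a b r j0 a' b' r' : ℕ), enc t1 t2 δ k a b r = some (a', b', r') →
      ‖powA t j0 - pt a b‖ ≤ (r : ℝ) / UU → 0 ≤ (powA t j0).im → 0 ≤ (powA t (j0 + k)).im := by
  intro k
  induction k with
  | zero =>
    intro a b r j0 a' b' r' h hA him
    exact him
  | succ k ih =>
    intro a b r j0 a' b' r' h hA him
    unfold enc at h
    rw [cond_eq_ite] at h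
    split_ifs at h with hc
    simp only [Bool.and_eq_true, Nat.blt_eq, Nat.ble_eq] at hc
    have hstep := nxr_spec t1 t2 δ a b r (nxa t1 t2 a b) (nxb t1 t2 a b) ht hA hc.1.1 hc.1.2
    have h1 : 0 ≤ (powA t (j0 + 1)).im := by
      simp only [powA]
      exact im_step hi hre (re_nonneg_of_disc hA hc.2) him
    have := ih _ _ _ (j0 + 1) _ _ _ h hstep h1
    rw [show j0 + (k + 1) = j0 + 1 + k by omega]
    exact this

/-- start test for the sector of radius `α/UU` and triangle `(0,0), (v,0), (w,2w)` -/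
def secCheck (t1 t2 δ i0 α v w : ℕ) : Bool :=
  match enc t1 t2 δ i0 UU 0 0 with
  | none => false
  | some (a, b, r) =>
    -- b + r ≤ 2 (a - r)
    Nat.ble (b + 3 * r) (2 * a) &&
    -- cut
    Nat.ble (19 * ((t1 + t2 + 2 * δ) * UU)) (20 * ((a + b - 2 * r) * (a + b - 2 * r))) &&
    Nat.ble (2 * r) (a + b) &&
    -- modulus
    Nat.ble ((a + r) * (a + r) + (b + r) * (b + r)) (α * α) &&
    Nat.ble (3 * α) UU && Nat.blt 0 α &&
    -- H1, H2 on the disc of t
    Nat.ble (10 * ((t1 + 2 * t2 + 3 * δ) * UU)) (9 * (α * α)) &&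
    Nat.ble (12 * (((t1 + δ) * (t1 + δ) + 2 * ((t2 + δ) * (t2 + δ))) * UU)) (α * α * α) &&
    -- triangle
    Nat.ble ((2 * w * (2 * w) + (v - w) * (v - w)) * (α * α)) (2 * w * v * (2 * w * v)) &&
    Nat.blt w v && Nat.blt 0 w

theorem abs_re_im_le {A : ℂ} {a b r : ℕ} (h : ‖A - pt a b‖ ≤ (r : ℝ) / UU) :
    |A.re * UU - a| ≤ r ∧ |A.im * UU - b| ≤ r := by
  have hU := UU_pos
  have h1 := (Complex.abs_re_le_norm (A - pt a b)).trans h
  have h2 := (Complex.abs_im_le_norm (A - pt a b)).trans h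
  simp only [Complex.sub_re, Complex.sub_im, pt] at h1 h2
  constructor
  · have e : A.re * UU - a = (A.re - (a : ℝ) / UU) * UU := by field_simp
    rw [e, abs_mul, abs_of_pos hU]
    calc _ ≤ (r : ℝ) / UU * UU := mul_le_mul_of_nonneg_right h1 hU.le
      _ = r := by field_simp
  · have e : A.im * UU - b = (A.im - (b : ℝ) / UU) * UU := by field_simp
    rw [e, abs_mul, abs_of_pos hU]
    calc _ ≤ (r : ℝ) / UU * UU := mul_le_mul_of_nonneg_right h2 hU.le
      _ = r := by field_simp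

/-- real form of the start test -/
theorem sec_start {x y a b r α T1 T2 : ℝ} {U : ℝ} (hU : 0 < U) (k1 : |x * U - a| ≤ r)
    (k2 : |y * U - b| ≤ r) (hy : 0 ≤ y) (_ : 0 ≤ r) (c1 : b + 3 * r ≤ 2 * a)
    (c3 : 2 * r ≤ a + b) (c2 : 19 * ((T1 + T2) * U * U) ≤ 20 * ((a + b - 2 * r) * (a + b - 2 * r)))
    (c4 : (a + r) * (a + r) + (b + r) * (b + r) ≤ α * α) (ha : 0 ≤ a) :
    y ≤ 2 * x ∧ 19 / 20 * (T1 + T2) ≤ (x + y) ^ 2 ∧ x ^ 2 + y ^ 2 ≤ (α / U) ^ 2 := by
  rw [abs_le] at k1 k2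
  have hx0 : 0 ≤ x * U := by linarith [hy, mul_nonneg hy hU.le]
  have hy0 : 0 ≤ y * U := mul_nonneg hy hU.le
  refine ⟨?_, ?_, ?_⟩
  · have : y * U ≤ 2 * x * U := by linarith
    exact le_of_mul_le_mul_right this hU
  · have h1 : (a + b - 2 * r) ^ 2 ≤ (x * U + y * U) ^ 2 :=
      pow_le_pow_left₀ (by linarith) (by linarith) 2
    have h2 : 19 / 20 * (T1 + T2) * U ^ 2 ≤ (x + y) ^ 2 * U ^ 2 := by
      have e1 : (x + y) ^ 2 * U ^ 2 = (x * U + y * U) ^ 2 := by ring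
      have e2 : 19 / 20 * (T1 + T2) * U ^ 2 = 19 * ((T1 + T2) * U * U) / 20 := by ring
      have e3 : (a + b - 2 * r) * (a + b - 2 * r) = (a + b - 2 * r) ^ 2 := by ring
      rw [e1, e2]; rw [e3] at c2
      linarith
    exact le_of_mul_le_mul_right h2 (by positivity)
  · rw [div_pow, le_div_iff₀ (by positivity)]
    have h1 : (x * U) ^ 2 ≤ (a + r) ^ 2 := pow_le_pow_left₀ hx0 (by linarith) 2
    have h2 : (y * U) ^ 2 ≤ (b + r) ^ 2 := pow_le_pow_left₀ hy0 (by linarith) 2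
    have e1 : (x ^ 2 + y ^ 2) * U ^ 2 = (x * U) ^ 2 + (y * U) ^ 2 := by ring
    rw [e1]
    have e2 : (a + r) * (a + r) = (a + r) ^ 2 := by ring
    have e3 : (b + r) * (b + r) = (b + r) ^ 2 := by ring
    have e4 : α * α = α ^ 2 := by ring
    rw [e2, e3, e4] at c4
    linarith

/-- real form of the conditions on `t` -/
theorem sec_tcond {x y a b r α : ℝ} {U : ℝ} (hU : 0 < U) (k1 : |x * U - a| ≤ r)
    (k2 : |y * U - b| ≤ r) (hy : 0 ≤ y) (hxy : -y / 100 ≤ x) (ha : 0 ≤ a) (hb : 0 ≤ b)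
    (hr : 0 ≤ r) (c7 : 10 * ((a + 2 * b + 3 * r) * U) ≤ 9 * (α * α))
    (c8 : 12 * (((a + r) * (a + r) + 2 * ((b + r) * (b + r))) * U) ≤ α * α * α) :
    x + 2 * y ≤ 9 / 10 * (α / U) ^ 2 ∧ x ^ 2 + y ^ 2 ≤ (α / U) ^ 3 / 12 := by
  rw [abs_le] at k1 k2
  have hy0 : 0 ≤ y * U := mul_nonneg hy hU.le
  constructor
  · have e : 9 / 10 * (α / U) ^ 2 = 9 * (α * α) / 10 / U ^ 2 := by field_simp
    rw [e, le_div_iff₀ (by positivity)]
    have h1 : (x + 2 * y) * U ≤ a + 2 * b + 3 * r := by linarith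
    have h2 : (x + 2 * y) * U * U ≤ (a + 2 * b + 3 * r) * U := mul_le_mul_of_nonneg_right h1 hU.le
    have e2 : (x + 2 * y) * U ^ 2 = (x + 2 * y) * U * U := by ring
    rw [e2]; linarith
  · have e : (α / U) ^ 3 / 12 = α * α * α / 12 / U ^ 3 := by field_simp
    rw [e, le_div_iff₀ (by positivity)]
    have m1 : (y * U) ^ 2 ≤ (b + r) ^ 2 := pow_le_pow_left₀ hy0 (by linarith) 2
    have m2 : (x * U) ^ 2 ≤ (a + r) ^ 2 + (b + r) ^ 2 := by
      have q0 : 0 ≤ (a + r) ^ 2 := sq_nonneg _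
      have q1 : 0 ≤ (b + r) ^ 2 := sq_nonneg _
      rcases le_total 0 (x * U) with q | q
      · have := pow_le_pow_left₀ q (by linarith : x * U ≤ a + r) 2
        linarith
      · have h3 : -(x * U) ≤ y * U := by
          have := mul_le_mul_of_nonneg_right hxy hU.le
          have e4 : -y / 100 * U = -(y * U) / 100 := by ring
          rw [e4] at this
          linarith
        have := pow_le_pow_left₀ (by linarith) (by linarith : -(x * U) ≤ b + r) 2
        have e5 : (-(x * U)) ^ 2 = (x * U) ^ 2 := by ring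
        rw [e5] at this
        linarith
    have e2 : (x ^ 2 + y ^ 2) * U ^ 3 = ((x * U) ^ 2 + (y * U) ^ 2) * U := by ring
    rw [e2]
    have h4 : ((x * U) ^ 2 + (y * U) ^ 2) * U ≤ ((a + r) ^ 2 + (b + r) ^ 2 + (b + r) ^ 2) * U :=
      mul_le_mul_of_nonneg_right (by linarith) hU.le
    have e6 : 12 * (((a + r) * (a + r) + 2 * ((b + r) * (b + r))) * U)
        = 12 * (((a + r) ^ 2 + (b + r) ^ 2 + (b + r) ^ 2) * U) := by ring
    rw [e6] at c8
    linarith

/-- the sector is inside the triangle -/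
theorem sec_tri {t A : ℂ} {α v w : ℕ} (hA : A ∈ Sec t ((α : ℝ) / UU))
    (c9 : (2 * w * (2 * w) + (v - w) * (v - w)) * (α * α) ≤ 2 * w * v * (2 * w * v))
    (c10 : w < v) (c11 : 0 < w) : InHull [(0, 0), (v, 0), (w, 2 * w)] A := by
  have hU := UU_pos
  obtain ⟨q1, q2, -, q4⟩ := hA
  have hv0 : (0 : ℝ) < v := by
    have : 0 < v := by omega
    exact_mod_cast this
  have hw0 : (0 : ℝ) < w := by exact_mod_cast c11
  apply hull_of_lft
  · simp only [okV, pos3, Nat.blt_eq]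
    simp
    exact ⟨by omega, c11⟩
  intro e he
  simp only [edges, List.cons_append, List.nil_append, List.zip_cons_cons, List.zip_nil_right,
    List.mem_cons, List.not_mem_nil, or_false] at he
  rcases he with rfl | rfl | rfl
  · simp only [lft, cr, pt, Complex.sub_re, Complex.sub_im, Nat.cast_zero, zero_div, sub_zero,
      zero_mul]
    exact mul_nonneg (by positivity) q1
  · -- the upper edge
    simp only [lft, cr, pt, Complex.sub_re, Complex.sub_im, Nat.cast_zero, zero_div, sub_zero]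
    have c9' : (2 * (w : ℝ) * (2 * w) + ((v : ℝ) - w) * (v - w)) * (α * α) ≤
        2 * w * v * (2 * w * v) := by
      have : (((2 * w * (2 * w) + (v - w) * (v - w)) * (α * α) : ℕ) : ℝ) ≤
        ((2 * w * v * (2 * w * v) : ℕ) : ℝ) := by exact_mod_cast c9
      rw [Nat.cast_mul, Nat.cast_add, Nat.cast_mul (v - w) (v - w), Nat.cast_sub c10.le] at this
      push_cast at this
      exact this
    have hkey : 2 * (w : ℝ) * A.re + ((v : ℝ) - w) * A.im ≤ 2 * w * v / UU := by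
      apply abs_le_of_sq_le_sq' _ (by positivity) |>.2
      have cs : (2 * (w : ℝ) * A.re + ((v : ℝ) - w) * A.im) ^ 2 ≤
          (2 * (w : ℝ) * (2 * w) + ((v : ℝ) - w) * (v - w)) * (A.re ^ 2 + A.im ^ 2) := by
        nlinarith [sq_nonneg (2 * (w : ℝ) * A.im - ((v : ℝ) - w) * A.re)]
      refine cs.trans ?_
      have h5 : (2 * (w : ℝ) * (2 * w) + ((v : ℝ) - w) * (v - w)) * (A.re ^ 2 + A.im ^ 2) ≤
          (2 * (w : ℝ) * (2 * w) + ((v : ℝ) - w) * (v - w)) * ((α : ℝ) / UU) ^ 2 :=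
        mul_le_mul_of_nonneg_left q4 (by nlinarith [sq_nonneg ((v : ℝ) - w), sq_nonneg (w : ℝ)])
      refine h5.trans ?_
      have e7 : (2 * (w : ℝ) * (2 * w) + ((v : ℝ) - w) * (v - w)) * ((α : ℝ) / UU) ^ 2
          = (2 * (w : ℝ) * (2 * w) + ((v : ℝ) - w) * (v - w)) * (α * α) / UU ^ 2 := by
        field_simp
      have e8 : (2 * (w : ℝ) * v / UU) ^ 2 = 2 * w * v * (2 * w * v) / UU ^ 2 := by field_simp
      rw [e7, e8]
      exact div_le_div_of_nonneg_right c9' (by positivity)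
    have e9 : (↑w / ↑UU - ↑v / ↑UU) * A.im - ((2 * w : ℕ) : ℝ) / ↑UU * (A.re - ↑v / ↑UU)
        = (2 * (w : ℝ) * v / UU - (2 * (w : ℝ) * A.re + ((v : ℝ) - w) * A.im)) / UU := by
      push_cast
      field_simp
      ring
    rw [e9]
    apply div_nonneg _ hU.le
    linarith
  · simp only [lft, cr, pt, Complex.sub_re, Complex.sub_im, Nat.cast_zero, zero_div]
    have e9 : (0 - (w : ℝ) / UU) * (A.im - ((2 * w : ℕ) : ℝ) / UU)
        - (0 - ((2 * w : ℕ) : ℝ) / UU) * (A.re - (w : ℝ) / UU)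
        = (w : ℝ) / UU * (2 * A.re - A.im) := by
      push_cast
      field_simp
      ring
    rw [e9]
    exact mul_nonneg (by positivity) (by linarith)

/-- SOUNDNESS of `secCheck`: a triangle for all `i ≥ i0` -/
theorem sec_sound {t1 t2 δ i0 α v w : ℕ} (h : secCheck t1 t2 δ i0 α v w = true) {t : ℂ}
    (ht : ‖t - pt t1 t2‖ ≤ (δ : ℝ) / UU) (hi : 0 ≤ t.im) (hre : -t.im / 100 ≤ t.re)
    (i : ℕ) (hii : i0 ≤ i) :
    InHull [(0, 0), (v, 0), (w, 2 * w)] (powA t i) := by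
  have hU := UU_pos
  unfold secCheck at h
  rcases hE : enc t1 t2 δ i0 UU 0 0 with _ | ⟨a, b, r⟩
  · rw [hE] at h; simp at h
  rw [hE] at h
  simp only [Bool.and_eq_true, Nat.ble_eq, Nat.blt_eq] at h
  obtain ⟨⟨⟨⟨⟨⟨⟨⟨⟨⟨c1, c2⟩, c3⟩, c4⟩, c5⟩, c6⟩, c7⟩, c8⟩, c9⟩, c10⟩, c11⟩ := h
  have hA := enc_one ht hE
  obtain ⟨k1, k2⟩ := abs_re_im_le hA
  obtain ⟨l1, l2⟩ := abs_re_im_le ht
  -- casts
  have d1 : ((b : ℝ) + 3 * r) ≤ 2 * a := by exact_mod_cast c1
  have d3 : (2 * (r : ℝ)) ≤ a + b := by exact_mod_cast c3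
  have d2 : 19 * (((t1 : ℝ) + t2 + 2 * δ) * UU) ≤ 20 * ((a + b - 2 * r) * (a + b - 2 * r)) := by
    have : ((19 * ((t1 + t2 + 2 * δ) * UU) : ℕ) : ℝ) ≤
      ((20 * ((a + b - 2 * r) * (a + b - 2 * r)) : ℕ) : ℝ) := by exact_mod_cast c2
    rw [Nat.cast_mul, Nat.cast_mul, Nat.cast_mul, Nat.cast_mul, Nat.cast_sub c3] at this
    push_cast at this
    exact this
  have d4 : ((a : ℝ) + r) * (a + r) + (b + r) * (b + r) ≤ α * α := by exact_mod_cast c4
  have d5 : 3 * (α : ℝ) ≤ UU := by exact_mod_cast c5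
  have d6 : (0 : ℝ) < α := by exact_mod_cast c6
  have d7 : 10 * (((t1 : ℝ) + 2 * t2 + 3 * δ) * UU) ≤ 9 * (α * α) := by exact_mod_cast c7
  have d8 : 12 * ((((t1 : ℝ) + δ) * (t1 + δ) + 2 * ((t2 + δ) * (t2 + δ))) * UU) ≤ α * α * α := by
    exact_mod_cast c8
  have hαp : (0 : ℝ) < (α : ℝ) / UU := by positivity
  have hα3 : (α : ℝ) / UU ≤ 1 / 3 := by
    rw [div_le_iff₀ hU]; linarith
  obtain ⟨H1, H2⟩ := sec_tcond hU l1 l2 hi hre (Nat.cast_nonneg _) (Nat.cast_nonneg _)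
    (Nat.cast_nonneg _) d7 d8
  have hα2 : ((α : ℝ) / UU) ^ 2 ≤ 1 / 9 := by
    calc ((α : ℝ) / UU) ^ 2 ≤ (1 / 3) ^ 2 := pow_le_pow_left₀ hαp.le hα3 2
      _ = 1 / 9 := by norm_num
  have hA' : ‖powA t 0 - pt UU 0‖ ≤ ((0 : ℕ) : ℝ) / UU := by
    have : powA t 0 - pt UU 0 = 0 := by
      have hU := UU_pos.ne'
      apply Complex.ext
      · simp [powA, pt, div_self hU]
      · simp [powA, pt]
    rw [this]; simp
  have him : 0 ≤ (powA t i0).im := by
    have := enc_im ht hi (by linarith) i0 UU 0 0 0 a b r hE hA' (by simp [powA])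
    rwa [zero_add] at this
  rw [abs_le] at l1 l2
  have d2' : 19 * ((t.re + t.im) * UU * UU) ≤ 20 * ((a + b - 2 * r) * (a + b - 2 * r)) := by
    refine le_trans ?_ d2
    have h1 : (t.re + t.im) * UU ≤ t1 + t2 + 2 * δ := by linarith
    have h2 := mul_le_mul_of_nonneg_right h1 hU.le
    linarith
  obtain ⟨s1, s2, s3⟩ := sec_start hU k1 k2 him (Nat.cast_nonneg _) d1 d3 d2' d4
    (Nat.cast_nonneg _)
  have hmem : powA t i0 ∈ Sec t ((α : ℝ) / UU) := ⟨him, s1, s2, s3⟩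
  exact sec_tri (tail_sector hi hre hαp hα3 H1 H2 hmem i hii) c9 c10 c11

end Pool.Agent.Helper32.C75
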