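import Pool.Agent.Helper32.C75.Tail2

/-!
MP_c75db0 (row AM): one cell.  `t` runs through a neighbourhood of a segment `T0 T1` (radius `ρ`);
the segment is cut into pieces, each piece is treated by `tailCheck` or `secCheck`.
-/

set_option autoImplicit false
namespace Pool.Agent.Helper32.C75

open Pool.Agent.Helper42.CH

/-- number of units of the segment parameter -/
def SS : ℕ := 1024

/-- data for one piece: `disc n u v R` (trap) or `sector α` (the triangle is the head of the list of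
polygons) -/
inductive Pc
  | disc (n u v R : ℕ)
  | sec (α : ℕ)

/-- centre of the piece `[s0, s1]` -/
def cen (x0 x1 s0 s1 : ℕ) : ℕ := (x0 * (2 * SS - (s0 + s1)) + x1 * (s0 + s1)) / (2 * SS)

/-- radius of the piece `[s0, s1]` -/
def rad (T0 T1 : ℕ × ℕ) (ρ s0 s1 : ℕ) : ℕ :=
  len (ad T1.1 T0.1) (ad T1.2 T0.2) * (s1 - s0) / (2 * SS) + 3 + ρ

/-- one piece -/
def pcCheck (ax : Bool) (Vs : List (List (ℕ × ℕ))) (T0 T1 : ℕ × ℕ) (ρ i0 s0 s1 : ℕ) : Pc → Bool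
  | .disc n u v R => tailCheck ax (Vs.map edges) (cen T0.1 T1.1 s0 s1) (cen T0.2 T1.2 s0 s1)
      (rad T0 T1 ρ s0 s1) i0 n u v R
  | .sec α => match Vs with
    | [(0, 0), (v, 0), (w, w')] :: _ => Nat.beq w' (2 * w) &&
        secCheck (cen T0.1 T1.1 s0 s1) (cen T0.2 T1.2 s0 s1) (rad T0 T1 ρ s0 s1) i0 α v w
    | _ => false

/-- all pieces -/
def pcsCheck (ax : Bool) (Vs : List (List (ℕ × ℕ))) (T0 T1 : ℕ × ℕ) (ρ i0 : ℕ) :
    ℕ → List (ℕ × Pc) → Bool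
  | s, [] => Nat.beq s SS
  | s, (s', p) :: l => Nat.ble s s' && Nat.ble s' SS && pcCheck ax Vs T0 T1 ρ i0 s s' p &&
      pcsCheck ax Vs T0 T1 ρ i0 s' l

/-- one cell -/
def cellCheck (ax : Bool) (Vs : List (List (ℕ × ℕ))) (T0 T1 : ℕ × ℕ) (ρ i0 : ℕ)
    (l : List (ℕ × Pc)) : Bool :=
  Vs.all okV && pcsCheck ax Vs T0 T1 ρ i0 0 l

/-- point of the segment -/
noncomputable def seg (T0 T1 : ℕ × ℕ) (σ : ℝ) : ℂ :=
  ((1 - σ : ℝ) : ℂ) * pt T0.1 T0.2 + (σ : ℂ) * pt T1.1 T1.2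

theorem SS_pos : (0 : ℝ) < (SS : ℝ) := by norm_num [SS]

theorem cen_spec {x0 x1 s0 s1 : ℕ} (h0 : s0 ≤ SS) (h1 : s1 ≤ SS) :
    |(cen x0 x1 s0 s1 : ℝ) - ((1 - ((s0 : ℝ) + s1) / (2 * SS)) * x0 +
      ((s0 : ℝ) + s1) / (2 * SS) * x1)| ≤ 1 := by
  have hS := SS_pos
  obtain ⟨N, hN⟩ : ∃ N : ℕ, N = x0 * (2 * SS - (s0 + s1)) + x1 * (s0 + s1) := ⟨_, rfl⟩
  have hNr : (N : ℝ) = x0 * (2 * SS - (s0 + s1)) + x1 * (s0 + s1) := by
    rw [hN]; push_cast [Nat.cast_sub (show s0 + s1 ≤ 2 * SS by omega)]; ring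
  have e : ((1 - ((s0 : ℝ) + s1) / (2 * SS)) * x0 + ((s0 : ℝ) + s1) / (2 * SS) * x1)
      = (N : ℝ) / (2 * SS) := by
    rw [hNr]; field_simp
  rw [e]
  unfold cen
  rw [← hN]
  have k1 : ((N / (2 * SS) : ℕ) : ℝ) ≤ (N : ℝ) / (2 * SS) := by
    have := @Nat.cast_div_le ℝ _ _ _ N (2 * SS)
    push_cast at this
    exact this
  have k2 : (N : ℝ) / (2 * SS) < ((N / (2 * SS) : ℕ) : ℝ) + 1 := by
    rw [div_lt_iff₀ (by positivity)]
    have := Nat.lt_div_mul_add (a := N) (b := 2 * SS) (by norm_num [SS])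
    have h3 : N < (N / (2 * SS) + 1) * (2 * SS) := by rw [add_mul, one_mul]; exact this
    exact_mod_cast h3
  rw [abs_le]
  constructor <;> linarith

theorem piece_disc {T0 T1 : ℕ × ℕ} {ρ s0 s1 : ℕ} (h0 : s0 ≤ s1) (h1 : s1 ≤ SS) {t : ℂ} {σ : ℝ}
    (k0 : (s0 : ℝ) ≤ σ * SS) (k1 : σ * SS ≤ s1) (ht : ‖t - seg T0 T1 σ‖ ≤ (ρ : ℝ) / UU) :
    ‖t - pt (cen T0.1 T1.1 s0 s1) (cen T0.2 T1.2 s0 s1)‖ ≤ (rad T0 T1 ρ s0 s1 : ℝ) / UU := by
  have hU := UU_pos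
  have hS := SS_pos
  have g1 := cen_spec (x0 := T0.1) (x1 := T1.1) (h0.trans h1) h1
  have g2 := cen_spec (x0 := T0.2) (x1 := T1.2) (h0.trans h1) h1
  obtain ⟨m, hm⟩ : ∃ m : ℝ, m = ((s0 : ℝ) + s1) / (2 * SS) := ⟨_, rfl⟩
  rw [← hm] at g1 g2
  have hseg : ‖seg T0 T1 σ - seg T0 T1 m‖ ≤
      (len (ad T1.1 T0.1) (ad T1.2 T0.2) : ℝ) * (s1 - s0) / (2 * SS) / UU := by
    have e : seg T0 T1 σ - seg T0 T1 m = ((σ - m : ℝ) : ℂ) * (pt T1.1 T1.2 - pt T0.1 T0.2) := by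
      unfold seg; push_cast; ring
    rw [e, norm_mul, Complex.norm_real, Real.norm_eq_abs]
    have a1 : |σ - m| ≤ ((s1 : ℝ) - s0) / (2 * SS) := by
      have e1 : ((s0 : ℝ) + s1) / (2 * SS) - ((s1 : ℝ) - s0) / (2 * SS) ≤ σ := by
        rw [← sub_div, div_le_iff₀ (by positivity)]; linarith
      have e2 : σ ≤ ((s0 : ℝ) + s1) / (2 * SS) + ((s1 : ℝ) - s0) / (2 * SS) := by
        rw [← add_div, le_div_iff₀ (by positivity)]; linarith
      rw [hm, abs_le]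
      constructor <;> linarith
    have a2 : ‖pt T1.1 T1.2 - pt T0.1 T0.2‖ ≤ (len (ad T1.1 T0.1) (ad T1.2 T0.2) : ℝ) / UU := by
      have := dist_le (A := pt T1.1 T1.2) (a := T1.1) (b := T1.2) (u := T0.1) (v := T0.2) (r := 0)
        (R := len (ad T1.1 T0.1) (ad T1.2 T0.2)) (by simp) (by simp)
      exact this
    calc |σ - m| * ‖pt T1.1 T1.2 - pt T0.1 T0.2‖
        ≤ ((s1 : ℝ) - s0) / (2 * SS) * ((len (ad T1.1 T0.1) (ad T1.2 T0.2) : ℝ) / UU) :=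
          mul_le_mul a1 a2 (norm_nonneg _) (le_trans (abs_nonneg _) a1)
      _ = _ := by field_simp
  have hcen : ‖seg T0 T1 m - pt (cen T0.1 T1.1 s0 s1) (cen T0.2 T1.2 s0 s1)‖ ≤ 2 / UU := by
    refine (Complex.norm_le_abs_re_add_abs_im _).trans ?_
    have e1 : (seg T0 T1 m - pt (cen T0.1 T1.1 s0 s1) (cen T0.2 T1.2 s0 s1)).re
        = -((cen T0.1 T1.1 s0 s1 : ℝ) - ((1 - m) * T0.1 + m * T1.1)) / UU := by
      simp only [seg, pt, Complex.sub_re, Complex.add_re, Complex.mul_re, Complex.ofReal_re,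
        Complex.ofReal_im, zero_mul, sub_zero]
      field_simp
      ring
    have e2 : (seg T0 T1 m - pt (cen T0.1 T1.1 s0 s1) (cen T0.2 T1.2 s0 s1)).im
        = -((cen T0.2 T1.2 s0 s1 : ℝ) - ((1 - m) * T0.2 + m * T1.2)) / UU := by
      simp only [seg, pt, Complex.sub_im, Complex.add_im, Complex.mul_im, Complex.ofReal_re,
        Complex.ofReal_im, zero_mul, add_zero]
      field_simp
      ring
    rw [e1, e2, abs_div, abs_div, abs_neg, abs_neg, abs_of_pos hU]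
    have := div_le_div_of_nonneg_right g1 hU.le
    have := div_le_div_of_nonneg_right g2 hU.le
    have e3 : (2 : ℝ) / UU = 1 / UU + 1 / UU := by ring
    linarith
  have htri : ‖t - pt (cen T0.1 T1.1 s0 s1) (cen T0.2 T1.2 s0 s1)‖ ≤ ‖t - seg T0 T1 σ‖
      + ‖seg T0 T1 σ - seg T0 T1 m‖
      + ‖seg T0 T1 m - pt (cen T0.1 T1.1 s0 s1) (cen T0.2 T1.2 s0 s1)‖ := by
    have e : t - pt (cen T0.1 T1.1 s0 s1) (cen T0.2 T1.2 s0 s1) = (t - seg T0 T1 σ)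
      + (seg T0 T1 σ - seg T0 T1 m)
      + (seg T0 T1 m - pt (cen T0.1 T1.1 s0 s1) (cen T0.2 T1.2 s0 s1)) := by ring
    rw [e]; exact norm_add₃_le
  refine htri.trans ?_
  unfold rad
  obtain ⟨N, hN⟩ : ∃ N : ℕ, N = len (ad T1.1 T0.1) (ad T1.2 T0.2) * (s1 - s0) := ⟨_, rfl⟩
  have hNr : (N : ℝ) = (len (ad T1.1 T0.1) (ad T1.2 T0.2) : ℝ) * (s1 - s0) := by
    rw [hN, Nat.cast_mul, Nat.cast_sub h0]
  rw [← hN]
  rw [← hNr] at hseg
  have k2 : (N : ℝ) / (2 * SS) ≤ ((N / (2 * SS) : ℕ) : ℝ) + 1 := by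
    rw [div_le_iff₀ (by positivity)]
    have := Nat.lt_div_mul_add (a := N) (b := 2 * SS) (by norm_num [SS])
    have h3 : N ≤ (N / (2 * SS) + 1) * (2 * SS) := by rw [add_mul, one_mul]; exact this.le
    exact_mod_cast h3
  have k3 : (N : ℝ) / (2 * SS) / UU ≤ (((N / (2 * SS) : ℕ) : ℝ) + 1) / UU :=
    div_le_div_of_nonneg_right k2 hU.le
  rw [Nat.cast_add, Nat.cast_add, add_div, add_div]
  rw [add_div] at k3
  have e3 : ((3 : ℕ) : ℝ) / UU = 1 / UU + 2 / UU := by push_cast; ring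
  rw [e3]
  linarith

theorem pc_sound {ax : Bool} {Vs : List (List (ℕ × ℕ))} (hV : Vs.all okV = true)
    {T0 T1 : ℕ × ℕ} {ρ i0 s0 s1 : ℕ} {p : Pc} (h : pcCheck ax Vs T0 T1 ρ i0 s0 s1 p = true)
    (h0 : s0 ≤ s1) (h1 : s1 ≤ SS) {t : ℂ} {σ : ℝ}
    (k0 : (s0 : ℝ) ≤ σ * SS) (k1 : σ * SS ≤ s1) (ht : ‖t - seg T0 T1 σ‖ ≤ (ρ : ℝ) / UU)
    (hi : 0 ≤ t.im) (hre : -t.im / 100 ≤ t.re) (hax : ax = true → ∀ i, 0 ≤ (powA t i).im)
    (i : ℕ) (hii : i0 ≤ i) : ∃ V ∈ Vs, InHull V (powA t i) := by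
  have hd := piece_disc h0 h1 k0 k1 ht
  match p, h with
  | .disc n u v R, h => exact tail_hull hV h hd hax i hii
  | .sec α, h =>
    unfold pcCheck at h
    simp only at h
    split at h
    · rename_i v w w' tl
      simp only [Bool.and_eq_true, Nat.beq_eq] at h
      obtain ⟨h2, h3⟩ := h
      subst h2
      exact ⟨_, List.mem_cons_self, sec_sound h3 hd hi hre i hii⟩
    · simp at h

theorem pcs_sound {ax : Bool} {Vs : List (List (ℕ × ℕ))} (hV : Vs.all okV = true)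
    {T0 T1 : ℕ × ℕ} {ρ i0 : ℕ} {t : ℂ} {σ : ℝ} (hσ : σ ≤ 1)
    (ht : ‖t - seg T0 T1 σ‖ ≤ (ρ : ℝ) / UU)
    (hi : 0 ≤ t.im) (hre : -t.im / 100 ≤ t.re) (hax : ax = true → ∀ i, 0 ≤ (powA t i).im)
    (i : ℕ) (hii : i0 ≤ i) :
    ∀ (l : List (ℕ × Pc)) (s : ℕ), pcsCheck ax Vs T0 T1 ρ i0 s l = true → l ≠ [] →
      (s : ℝ) ≤ σ * SS → ∃ V ∈ Vs, InHull V (powA t i) := by
  intro l
  induction l with
  | nil => intro s _ h; exact absurd rfl h
  | cons x l ih =>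
    intro s h _ hs
    obtain ⟨s', p⟩ := x
    unfold pcsCheck at h
    simp only [Bool.and_eq_true, Nat.ble_eq] at h
    obtain ⟨⟨⟨h1, h2⟩, h3⟩, h4⟩ := h
    rcases le_total (σ * SS) s' with h5 | h5
    · exact pc_sound hV h3 h1 h2 hs h5 ht hi hre hax i hii
    · rcases eq_or_ne l [] with h6 | h6
      · subst h6
        simp only [pcsCheck, Nat.beq_eq] at h4
        have h7 : σ * SS ≤ s' := by
          rw [h4]
          calc σ * SS ≤ 1 * SS := mul_le_mul_of_nonneg_right hσ SS_pos.le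
            _ = SS := one_mul _
        exact pc_sound hV h3 h1 h2 hs h7 ht hi hre hax i hii
      · exact ih s' h4 h6 h5

/-- SOUNDNESS OF A CELL: for all `t` within `ρ/UU` of the segment `[T0, T1]` (units `1/UU`), with
`t` in the first quadrant (small negative real part allowed), all `powA t i`, `i ≥ i0`, are convex
combinations of the vertices of one of the polygons. -/
theorem cell_sound {ax : Bool} {Vs : List (List (ℕ × ℕ))} {T0 T1 : ℕ × ℕ} {ρ i0 : ℕ}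
    {l : List (ℕ × Pc)} (h : cellCheck ax Vs T0 T1 ρ i0 l = true) (hl : l ≠ []) {t : ℂ} {σ : ℝ}
    (h0 : 0 ≤ σ) (hσ : σ ≤ 1) (ht : ‖t - seg T0 T1 σ‖ ≤ (ρ : ℝ) / UU)
    (hi : 0 ≤ t.im) (hre : -t.im / 100 ≤ t.re) (hax : ax = true → ∀ i, 0 ≤ (powA t i).im)
    (i : ℕ) (hii : i0 ≤ i) : ∃ V ∈ Vs, InHull V (powA t i) := by
  unfold cellCheck at h
  simp only [Bool.and_eq_true] at h
  exact pcs_sound h.1 hσ ht hi hre hax i hii l 0 h.2 hl (by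
    rw [Nat.cast_zero]; exact mul_nonneg h0 SS_pos.le)

end Pool.Agent.Helper32.C75
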