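import Pool.Agent.Helper32.C75.Tail3

/-!
MP_c75db0 (row AM), version 2 of the cell check: `t` runs through a neighbourhood of the convex hull
of finitely many control points (any number of parameters), covered by a tree of rectangles; faster
polygon test.
-/

set_option autoImplicit false
namespace Pool.Agent.Helper32.C75

open Pool.Agent.Helper42.CH

/-! ### precomputed edges -/

/-- the inequality `n1 a + n2 b + n3 + r L ≤ p1 a + p2 b + p3` -/
structure E7 where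
  (p1 p2 p3 n1 n2 n3 L : ℕ)

/-- the inequality of an edge; edges on the real axis are ignored if `ax` -/
def mkE7 (ax : Bool) (e : (ℕ × ℕ) × (ℕ × ℕ)) : E7 :=
  bif ax && Nat.beq e.1.2 0 && Nat.beq e.2.2 0 && Nat.ble e.1.1 e.2.1 then ⟨0, 0, 0, 0, 0, 0, 0⟩
  else ⟨e.1.2 - e.2.2, e.2.1 - e.1.1, e.1.1 * e.2.2 - e.2.1 * e.1.2, e.2.2 - e.1.2, e.1.1 - e.2.1,
    e.2.1 * e.1.2 - e.1.1 * e.2.2, len (ad e.2.1 e.1.1) (ad e.2.2 e.1.2)⟩

def E7.ok (a b r : ℕ) (e : E7) : Bool :=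
  Nat.ble (e.n1 * a + e.n2 * b + e.n3 + r * e.L) (e.p1 * a + e.p2 * b + e.p3)

def E7.eqb (e f : E7) : Bool :=
  Nat.beq e.p1 f.p1 && Nat.beq e.p2 f.p2 && Nat.beq e.p3 f.p3 && Nat.beq e.n1 f.n1 &&
    Nat.beq e.n2 f.n2 && Nat.beq e.n3 f.n3 && Nat.beq e.L f.L

theorem E7.eqb_eq {e f : E7} (h : E7.eqb e f = true) : e = f := by
  obtain ⟨a1, a2, a3, a4, a5, a6, a7⟩ := e
  obtain ⟨b1, b2, b3, b4, b5, b6, b7⟩ := f
  simp only [E7.eqb, Bool.and_eq_true, Nat.beq_eq] at h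
  obtain ⟨⟨⟨⟨⟨⟨rfl, rfl⟩, rfl⟩, rfl⟩, rfl⟩, rfl⟩, rfl⟩ := h
  rfl

theorem mkE7_edg {ax : Bool} {a b r : ℕ} {e : (ℕ × ℕ) × (ℕ × ℕ)}
    (h : (mkE7 ax e).ok a b r = true) : edg ax a b r e = true := by
  obtain ⟨⟨x0, y0⟩, ⟨x1, y1⟩⟩ := e
  unfold mkE7 at h
  rw [cond_eq_ite] at h
  split_ifs at h with hc
  · unfold edg
    simp only [Bool.or_eq_true]
    left; exact hc
  · unfold edg
    simp only [Bool.or_eq_true]
    right
    unfold E7.ok at h
    rw [Nat.ble_eq] at h ⊢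
    simp only at h ⊢
    -- go to integers
    have k1 : ((y0 - y1 : ℕ) : ℤ) - ((y1 - y0 : ℕ) : ℤ) = (y0 : ℤ) - y1 := by omega
    have k2 : ((x1 - x0 : ℕ) : ℤ) - ((x0 - x1 : ℕ) : ℤ) = (x1 : ℤ) - x0 := by omega
    have k3 : ((x0 * y1 - x1 * y0 : ℕ) : ℤ) - ((x1 * y0 - x0 * y1 : ℕ) : ℤ)
        = ((x0 * y1 : ℕ) : ℤ) - ((x1 * y0 : ℕ) : ℤ) := by omega
    zify at h ⊢
    push_cast at k3
    have e1 : ((x1 : ℤ) * b + x0 * y1 + y0 * a) -
        (x1 * y0 + x0 * b + y1 * a + r * (len (ad x1 x0) (ad y1 y0) : ℤ))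
        = (((y0 - y1 : ℕ) : ℤ) * a + ((x1 - x0 : ℕ) : ℤ) * b + ((x0 * y1 - x1 * y0 : ℕ) : ℤ))
          - (((y1 - y0 : ℕ) : ℤ) * a + ((x0 - x1 : ℕ) : ℤ) * b + ((x1 * y0 - x0 * y1 : ℕ) : ℤ)
            + r * (len (ad x1 x0) (ad y1 y0) : ℤ)) := by
      linear_combination (-(a : ℤ)) * k1 - (b : ℤ) * k2 - k3
    linarith

/-- equality of lists of edges -/
def eqL : List E7 → List E7 → Bool
  | [], [] => true
  | e :: l, f :: m => E7.eqb e f && eqL l m
  | _, _ => false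

theorem eqL_eq : ∀ {l m : List E7}, eqL l m = true → l = m
  | [], [], _ => rfl
  | e :: l, f :: m, h => by
    simp only [eqL, Bool.and_eq_true] at h
    rw [E7.eqb_eq h.1, eqL_eq h.2]
  | [], _ :: _, h => by simp [eqL] at h
  | _ :: _, [], h => by simp [eqL] at h

/-- `P` is the list of the polygons of `Vs` -/
def eqP (ax : Bool) : List (List E7) → List (List (ℕ × ℕ)) → Bool
  | [], [] => true
  | p :: P, V :: Vs => eqL p ((edges V).map (mkE7 ax)) && eqP ax P Vs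
  | _, _ => false

/-- the disc is inside one of the polygons -/
def in7 (a b r : ℕ) (P : List (List E7)) : Bool := P.any fun es => es.all (E7.ok a b r)

theorem in7_inP {ax : Bool} {a b r : ℕ} : ∀ {P : List (List E7)} {Vs : List (List (ℕ × ℕ))},
    eqP ax P Vs = true → in7 a b r P = true → inP ax a b r (Vs.map edges) = true
  | [], [], _, h => by simp [in7] at h
  | p :: P, V :: Vs, he, h => by
    simp only [eqP, Bool.and_eq_true] at he
    have hp := eqL_eq he.1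
    unfold in7 at h
    rw [List.any_cons, Bool.or_eq_true] at h
    unfold inP
    rw [List.map_cons, List.any_cons, Bool.or_eq_true]
    rcases h with h | h
    · left
      rw [hp, List.all_eq_true] at h
      rw [List.all_eq_true]
      intro e hmem
      exact mkE7_edg (h _ (List.mem_map_of_mem hmem))
    · right
      exact in7_inP he.2 h
  | [], _ :: _, he, _ => by simp [eqP] at he
  | _ :: _, [], he, _ => by simp [eqP] at he

/-! ### fast versions of the disc recursion -/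

def run7 (P : List (List E7)) (t1 t2 δ u v R : ℕ) : ℕ → ℕ → ℕ → ℕ → Bool
  | 0, a, b, r => Nat.ble (len (ad a u) (ad b v) + r) R
  | n + 1, a, b, r =>
    in7 a b r P && Nat.blt r (loP a b) && Nat.blt (nxa t1 t2 a b) UU &&
      run7 P t1 t2 δ u v R n (nxa t1 t2 a b) (nxb t1 t2 a b)
        (nxr t1 t2 δ a b r (nxa t1 t2 a b) (nxb t1 t2 a b))

def pre7 (P : List (List E7)) (t1 t2 δ u v R n : ℕ) : ℕ → ℕ → ℕ → ℕ → Bool
  | 0, a, b, r => run7 P t1 t2 δ u v R n a b r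
  | k + 1, a, b, r =>
    Nat.blt r (loP a b) && Nat.blt (nxa t1 t2 a b) UU &&
      pre7 P t1 t2 δ u v R n k (nxa t1 t2 a b) (nxb t1 t2 a b)
        (nxr t1 t2 δ a b r (nxa t1 t2 a b) (nxb t1 t2 a b))

def tail7 (P : List (List E7)) (t1 t2 δ i0 n u v R : ℕ) : Bool :=
  trp t1 t2 δ u v R && in7 u v R P && pre7 P t1 t2 δ u v R n i0 UU 0 0

theorem run7_run {ax : Bool} {P : List (List E7)} {Vs : List (List (ℕ × ℕ))}
    (he : eqP ax P Vs = true) (t1 t2 δ u v R : ℕ) :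
    ∀ n a b r, run7 P t1 t2 δ u v R n a b r = true →
      run ax (Vs.map edges) t1 t2 δ u v R n a b r = true := by
  intro n
  induction n with
  | zero => intro a b r h; exact h
  | succ n ih =>
    intro a b r h
    unfold run7 at h
    unfold run
    simp only [Bool.and_eq_true] at h ⊢
    exact ⟨⟨⟨in7_inP he h.1.1.1, h.1.1.2⟩, h.1.2⟩, ih _ _ _ h.2⟩

theorem pre7_pre {ax : Bool} {P : List (List E7)} {Vs : List (List (ℕ × ℕ))}
    (he : eqP ax P Vs = true) (t1 t2 δ u v R n : ℕ) :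
    ∀ k a b r, pre7 P t1 t2 δ u v R n k a b r = true →
      pre ax (Vs.map edges) t1 t2 δ u v R n k a b r = true := by
  intro k
  induction k with
  | zero => intro a b r h; exact run7_run he _ _ _ _ _ _ n a b r h
  | succ k ih =>
    intro a b r h
    unfold pre7 at h
    unfold pre
    simp only [Bool.and_eq_true] at h ⊢
    exact ⟨h.1, ih _ _ _ h.2⟩

theorem tail7_tail {ax : Bool} {P : List (List E7)} {Vs : List (List (ℕ × ℕ))}
    (he : eqP ax P Vs = true) {t1 t2 δ i0 n u v R : ℕ}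
    (h : tail7 P t1 t2 δ i0 n u v R = true) :
    tailCheck ax (Vs.map edges) t1 t2 δ i0 n u v R = true := by
  unfold tail7 at h
  unfold tailCheck
  simp only [Bool.and_eq_true] at h ⊢
  exact ⟨⟨h.1.1, in7_inP he h.1.2⟩, pre7_pre he _ _ _ _ _ _ n i0 _ _ _ h.2⟩

/-! ### the region of `t` -/

/-- `t` is within `ρ/UU` of a convex combination of the points of `C` -/
def Near (C : List (ℕ × ℕ)) (ρ : ℕ) (t : ℂ) : Prop :=
  ∃ q : ℂ, InHull C q ∧ ‖t - q‖ ≤ (ρ : ℝ) / UU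

/-- the half plane `n1 x + n2 y + n3 ≤ p1 x + p2 y + p3` (unit `1/UU`) -/
structure HP where
  (p1 p2 p3 n1 n2 n3 : ℕ)

def HP.holds (e : HP) (t : ℂ) : Prop :=
  (e.n1 : ℝ) * (t.re * UU) + e.n2 * (t.im * UU) + e.n3 ≤
    e.p1 * (t.re * UU) + e.p2 * (t.im * UU) + e.p3

/-- the half plane contains the region -/
def HP.all (C : List (ℕ × ℕ)) (ρ : ℕ) (e : HP) : Bool :=
  C.all fun x => Nat.ble (e.n1 * x.1 + e.n2 * x.2 + e.n3 + ρ * (e.p1 + e.p2 + e.n1 + e.n2))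
    (e.p1 * x.1 + e.p2 * x.2 + e.p3)

theorem HP.all_spec {C : List (ℕ × ℕ)} {ρ : ℕ} {e : HP} (h : HP.all C ρ e = true) {t : ℂ}
    (ht : Near C ρ t) : e.holds t := by
  have hU := UU_pos
  obtain ⟨q, ⟨w, hw0, hw1, hq⟩, htq⟩ := ht
  unfold HP.all at h
  rw [List.all_eq_true] at h
  have hre : q.re * UU = ∑ i, w i * ((C.get i).1 : ℝ) := by
    rw [hq, Complex.re_sum, Finset.sum_mul]
    refine Finset.sum_congr rfl fun i _ => ?_
    simp only [Complex.mul_re, Complex.ofReal_re, Complex.ofReal_im, zero_mul, sub_zero, pt]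
    field_simp
  have him : q.im * UU = ∑ i, w i * ((C.get i).2 : ℝ) := by
    rw [hq, Complex.im_sum, Finset.sum_mul]
    refine Finset.sum_congr rfl fun i _ => ?_
    simp only [Complex.mul_im, Complex.ofReal_re, Complex.ofReal_im, zero_mul, add_zero, pt]
    field_simp
  have hsum : (e.n1 : ℝ) * (q.re * UU) + e.n2 * (q.im * UU) + e.n3 +
      ρ * (e.p1 + e.p2 + e.n1 + e.n2) ≤ e.p1 * (q.re * UU) + e.p2 * (q.im * UU) + e.p3 := by
    have : ∑ i, w i * ((e.n1 : ℝ) * ((C.get i).1 : ℝ) + e.n2 * ((C.get i).2 : ℝ) + e.n3 +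
        ρ * (e.p1 + e.p2 + e.n1 + e.n2)) ≤
        ∑ i, w i * ((e.p1 : ℝ) * ((C.get i).1 : ℝ) + e.p2 * ((C.get i).2 : ℝ) + e.p3) := by
      apply Finset.sum_le_sum
      intro i _
      apply mul_le_mul_of_nonneg_left _ (hw0 i)
      have := h (C.get i) (List.get_mem C i)
      rw [Nat.ble_eq] at this
      exact_mod_cast this
    have e1 : ∑ i, w i * ((e.n1 : ℝ) * ((C.get i).1 : ℝ) + e.n2 * ((C.get i).2 : ℝ) + e.n3 +
        ρ * (e.p1 + e.p2 + e.n1 + e.n2)) = (e.n1 : ℝ) * (q.re * UU) + e.n2 * (q.im * UU) +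
        (e.n3 + ρ * (e.p1 + e.p2 + e.n1 + e.n2)) * ∑ i, w i := by
      rw [hre, him, Finset.mul_sum, Finset.mul_sum, Finset.mul_sum, ← Finset.sum_add_distrib,
        ← Finset.sum_add_distrib]
      refine Finset.sum_congr rfl fun i _ => ?_
      ring
    have e2 : ∑ i, w i * ((e.p1 : ℝ) * ((C.get i).1 : ℝ) + e.p2 * ((C.get i).2 : ℝ) + e.p3)
        = (e.p1 : ℝ) * (q.re * UU) + e.p2 * (q.im * UU) + e.p3 * ∑ i, w i := by
      rw [hre, him, Finset.mul_sum, Finset.mul_sum, Finset.mul_sum, ← Finset.sum_add_distrib,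
        ← Finset.sum_add_distrib]
      refine Finset.sum_congr rfl fun i _ => ?_
      ring
    rw [e1, e2, hw1] at this
    linarith
  have h1 : |t.re * UU - q.re * UU| ≤ ρ := by
    have := (Complex.abs_re_le_norm (t - q)).trans htq
    rw [← sub_mul, abs_mul, abs_of_pos hU, ← Complex.sub_re]
    calc _ ≤ (ρ : ℝ) / UU * UU := mul_le_mul_of_nonneg_right this hU.le
      _ = ρ := by field_simp
  have h2 : |t.im * UU - q.im * UU| ≤ ρ := by
    have := (Complex.abs_im_le_norm (t - q)).trans htq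
    rw [← sub_mul, abs_mul, abs_of_pos hU, ← Complex.sub_im]
    calc _ ≤ (ρ : ℝ) / UU * UU := mul_le_mul_of_nonneg_right this hU.le
      _ = ρ := by field_simp
  rw [abs_le] at h1 h2
  unfold HP.holds
  have p1 : (0 : ℝ) ≤ e.p1 := Nat.cast_nonneg _
  have p2 : (0 : ℝ) ≤ e.p2 := Nat.cast_nonneg _
  have n1 : (0 : ℝ) ≤ e.n1 := Nat.cast_nonneg _
  have n2 : (0 : ℝ) ≤ e.n2 := Nat.cast_nonneg _
  have g1 := mul_le_mul_of_nonneg_left (show t.re * UU ≤ q.re * UU + ρ by linarith) n1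
  have g2 := mul_le_mul_of_nonneg_left (show t.im * UU ≤ q.im * UU + ρ by linarith) n2
  have g3 := mul_le_mul_of_nonneg_left (show q.re * UU - ρ ≤ t.re * UU by linarith) p1
  have g4 := mul_le_mul_of_nonneg_left (show q.im * UU - ρ ≤ t.im * UU by linarith) p2
  linarith

/-! ### the tree -/

inductive Tr
  | disc (n u v R : ℕ)
  | sec (α : ℕ)
  | skip (j : ℕ)
  | hx (s : ℕ) (l r : Tr)
  | hy (s : ℕ) (l r : Tr)

/-- radius of the rectangle around its centre -/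
def rrad (x0 x1 y0 y1 : ℕ) : ℕ :=
  len ((x1 - x0) / 2 + 1) ((y1 - y0) / 2 + 1) + (bif Nat.beq x0 0 then y1 / 100 + 1 else 0)

/-- first polygon is the triangle `(0,0), (v,0), (w,2w)` -/
def triOf : List (List (ℕ × ℕ)) → Option (ℕ × ℕ)
  | [(0, 0), (v, 0), (w, w')] :: _ => bif Nat.beq w' (2 * w) then some (v, w) else none
  | _ => none

def trCheck (P : List (List E7)) (tri : Option (ℕ × ℕ)) (H : List HP) (i0 : ℕ) :
    Tr → ℕ → ℕ → ℕ → ℕ → Bool
  | .disc n u v R, x0, x1, y0, y1 =>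
      tail7 P ((x0 + x1) / 2) ((y0 + y1) / 2) (rrad x0 x1 y0 y1) i0 n u v R
  | .sec α, x0, x1, y0, y1 => match tri with
    | some (v, w) => secCheck ((x0 + x1) / 2) ((y0 + y1) / 2) (rrad x0 x1 y0 y1) i0 α v w
    | none => false
  | .skip j, x0, x1, y0, y1 => match H[j]? with
    | some e => Nat.blt (e.p1 * x1 + e.p2 * y1 + e.p3) (e.n1 * x0 + e.n2 * y0 + e.n3) &&
        Nat.blt 0 x0
    | none => false
  | .hx s l r, x0, x1, y0, y1 => Nat.ble x0 s && Nat.ble s x1 && Nat.blt 0 s &&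
      trCheck P tri H i0 l x0 s y0 y1 && trCheck P tri H i0 r s x1 y0 y1
  | .hy s l r, x0, x1, y0, y1 => Nat.ble y0 s && Nat.ble s y1 &&
      trCheck P tri H i0 l x0 x1 y0 s && trCheck P tri H i0 r x0 x1 s y1

/-- one cell, version 2 -/
def cell2 (ax : Bool) (Vs : List (List (ℕ × ℕ))) (P : List (List E7)) (C : List (ℕ × ℕ)) (ρ : ℕ)
    (H : List HP) (i0 x0 x1 y0 y1 : ℕ) (T : Tr) : Bool :=
  Vs.all okV && eqP ax P Vs && H.all (HP.all C ρ) &&
    (C.all fun x => (Nat.ble (x0 + ρ) x.1 || Nat.beq x0 0) && Nat.ble (x.1 + ρ) x1 &&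
      (Nat.ble (y0 + ρ) x.2 || Nat.beq y0 0) && Nat.ble (x.2 + ρ) y1) &&
    Nat.ble x0 x1 && Nat.ble y0 y1 && trCheck P (triOf Vs) H i0 T x0 x1 y0 y1

/-- `t` in the rectangle; if `x0 = 0` small negative real parts are allowed -/
structure InR (x0 x1 y0 y1 : ℕ) (t : ℂ) : Prop where
  hx0 : (x0 : ℝ) ≤ t.re * UU ∨ x0 = 0
  hx1 : t.re * UU ≤ x1
  hy0 : (y0 : ℝ) ≤ t.im * UU
  hy1 : t.im * UU ≤ y1

theorem rect_disc {x0 x1 y0 y1 : ℕ} {t : ℂ} (h : InR x0 x1 y0 y1 t)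
    (hre : -t.im / 100 ≤ t.re) (hxx : x0 ≤ x1) (hyy : y0 ≤ y1) :
    ‖t - pt ((x0 + x1) / 2) ((y0 + y1) / 2)‖ ≤ (rrad x0 x1 y0 y1 : ℝ) / UU := by
  have hU := UU_pos
  obtain ⟨h1, h2, h3, h4⟩ := h
  -- clip the real part
  obtain ⟨x, hx⟩ : ∃ x : ℝ, x = max (x0 : ℝ) (t.re * UU) := ⟨_, rfl⟩
  have hx0 : (x0 : ℝ) ≤ x := by rw [hx]; exact le_max_left _ _
  have hx1 : x ≤ x1 := by
    rw [hx]; exact max_le (by exact_mod_cast hxx) h2
  have hdiff : |t.re * UU - x| ≤ ((bif Nat.beq x0 0 then y1 / 100 + 1 else 0 : ℕ) : ℝ) := by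
    rcases le_total (x0 : ℝ) (t.re * UU) with g | g
    · have : x = t.re * UU := by rw [hx]; exact max_eq_right g
      rw [this, sub_self, abs_zero]; exact Nat.cast_nonneg _
    · have hxe : x = x0 := by rw [hx]; exact max_eq_left g
      rcases h1 with h1 | h1
      · have : x = t.re * UU := by rw [hxe]; linarith
        rw [this, sub_self, abs_zero]; exact Nat.cast_nonneg _
      · subst h1
        rw [hxe]
        have hb : (Nat.beq 0 0) = true := rfl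
        rw [hb, cond_true, Nat.cast_zero, sub_zero, abs_of_nonpos (by simpa using g)]
        have e1 : -(t.re * UU) ≤ t.im * UU / 100 := by
          have := mul_le_mul_of_nonneg_right hre hU.le
          have e4 : -t.im / 100 * UU = -(t.im * UU / 100) := by ring
          rw [e4] at this
          linarith
        have e2 : (y1 : ℝ) / 100 ≤ ((y1 / 100 + 1 : ℕ) : ℝ) := by
          rw [div_le_iff₀ (by norm_num)]
          have := Nat.lt_div_mul_add (a := y1) (b := 100) (by norm_num)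
          have h3 : y1 ≤ (y1 / 100 + 1) * 100 := by rw [add_mul, one_mul]; exact this.le
          exact_mod_cast h3
        linarith
  have c1 : |x - ((x0 + x1) / 2 : ℕ)| ≤ (((x1 - x0) / 2 + 1 : ℕ) : ℝ) := by
    have k1 : x0 ≤ (x0 + x1) / 2 ∧ (x0 + x1) / 2 ≤ x0 + ((x1 - x0) / 2 + 1) := by omega
    have k2 : x1 ≤ (x0 + x1) / 2 + ((x1 - x0) / 2 + 1) := by omega
    have k1' : (((x0 + x1) / 2 : ℕ) : ℝ) ≤ x0 + (((x1 - x0) / 2 + 1 : ℕ) : ℝ) := by
      exact_mod_cast k1.2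
    have k2' : (x1 : ℝ) ≤ (((x0 + x1) / 2 : ℕ) : ℝ) + (((x1 - x0) / 2 + 1 : ℕ) : ℝ) := by
      exact_mod_cast k2
    rw [abs_le]; constructor <;> linarith
  have c2 : |t.im * UU - ((y0 + y1) / 2 : ℕ)| ≤ (((y1 - y0) / 2 + 1 : ℕ) : ℝ) := by
    have k1 : y0 ≤ (y0 + y1) / 2 ∧ (y0 + y1) / 2 ≤ y0 + ((y1 - y0) / 2 + 1) := by omega
    have k2 : y1 ≤ (y0 + y1) / 2 + ((y1 - y0) / 2 + 1) := by omega
    have k1' : (((y0 + y1) / 2 : ℕ) : ℝ) ≤ y0 + (((y1 - y0) / 2 + 1 : ℕ) : ℝ) := by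
      exact_mod_cast k1.2
    have k2' : (y1 : ℝ) ≤ (((y0 + y1) / 2 : ℕ) : ℝ) + (((y1 - y0) / 2 + 1 : ℕ) : ℝ) := by
      exact_mod_cast k2
    rw [abs_le]; constructor <;> linarith
  obtain ⟨z, hz⟩ : ∃ z : ℂ, z = ⟨x / UU, t.im⟩ := ⟨_, rfl⟩
  have hz1 : ‖z - pt ((x0 + x1) / 2) ((y0 + y1) / 2)‖ ≤
      (len ((x1 - x0) / 2 + 1) ((y1 - y0) / 2 + 1) : ℝ) / UU := by
    apply norm_le_of_sq (by positivity)
    have e1 : (z - pt ((x0 + x1) / 2) ((y0 + y1) / 2)).re = (x - ((x0 + x1) / 2 : ℕ)) / UU := by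
      rw [hz]; simp only [pt, Complex.sub_re]; rw [sub_div]
    have e2 : (z - pt ((x0 + x1) / 2) ((y0 + y1) / 2)).im
        = (t.im * UU - ((y0 + y1) / 2 : ℕ)) / UU := by
      rw [hz]; simp only [pt, Complex.sub_im]; field_simp
    rw [e1, e2, div_pow, div_pow, div_pow, ← add_div]
    apply div_le_div_of_nonneg_right _ (by positivity)
    refine le_trans ?_ (len_spec _ _)
    have k3 := sq_le_sq' (by
      have := neg_abs_le (x - ((x0 + x1) / 2 : ℕ)); linarith)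
      (le_trans (le_abs_self (x - ((x0 + x1) / 2 : ℕ))) c1)
    have k4 := sq_le_sq' (by
      have := neg_abs_le (t.im * UU - ((y0 + y1) / 2 : ℕ)); linarith)
      (le_trans (le_abs_self (t.im * UU - ((y0 + y1) / 2 : ℕ))) c2)
    linarith
  have hz2 : ‖t - z‖ ≤ ((bif Nat.beq x0 0 then y1 / 100 + 1 else 0 : ℕ) : ℝ) / UU := by
    apply norm_le_of_sq (by positivity)
    have e1 : (t - z).re = (t.re * UU - x) / UU := by
      rw [hz]; simp only [Complex.sub_re]; field_simp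
    have e2 : (t - z).im = 0 := by rw [hz]; simp
    rw [e1, e2, div_pow, div_pow]
    have := sq_le_sq' (by have := neg_abs_le (t.re * UU - x); linarith)
      (le_trans (le_abs_self (t.re * UU - x)) hdiff)
    have h5 := div_le_div_of_nonneg_right this (by positivity : (0:ℝ) ≤ (UU : ℝ) ^ 2)
    simpa using h5
  have htri : ‖t - pt ((x0 + x1) / 2) ((y0 + y1) / 2)‖ ≤ ‖t - z‖ +
      ‖z - pt ((x0 + x1) / 2) ((y0 + y1) / 2)‖ := by
    have e : t - pt ((x0 + x1) / 2) ((y0 + y1) / 2) = (t - z) +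
      (z - pt ((x0 + x1) / 2) ((y0 + y1) / 2)) := by ring
    rw [e]; exact norm_add_le _ _
  unfold rrad
  rw [Nat.cast_add, add_div]
  linarith

theorem triOf_spec {Vs : List (List (ℕ × ℕ))} {v w : ℕ} (h : triOf Vs = some (v, w)) :
    [(0, 0), (v, 0), (w, 2 * w)] ∈ Vs := by
  unfold triOf at h
  split at h
  · rename_i v' w' w'' tl
    rw [cond_eq_ite] at h
    split_ifs at h with hb
    rw [Nat.beq_eq] at hb
    simp only [Option.some.injEq, Prod.mk.injEq] at h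
    obtain ⟨rfl, rfl⟩ := h
    subst hb
    exact List.mem_cons_self
  · simp at h

theorem tr_sound {ax : Bool} {Vs : List (List (ℕ × ℕ))} {P : List (List E7)} {H : List HP} {i0 : ℕ}
    (hV : Vs.all okV = true) (he : eqP ax P Vs = true) {t : ℂ} (hH : ∀ e ∈ H, e.holds t)
    (hi : 0 ≤ t.im) (hre : -t.im / 100 ≤ t.re) (hax : ax = true → ∀ i, 0 ≤ (powA t i).im)
    (i : ℕ) (hii : i0 ≤ i) :
    ∀ (T : Tr) (x0 x1 y0 y1 : ℕ), trCheck P (triOf Vs) H i0 T x0 x1 y0 y1 = true → x0 ≤ x1 →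
      y0 ≤ y1 → InR x0 x1 y0 y1 t → ∃ V ∈ Vs, InHull V (powA t i) := by
  intro T
  induction T with
  | disc n u v R =>
    intro x0 x1 y0 y1 h hxx hyy hR
    exact tail_hull hV (tail7_tail he h) (rect_disc hR hre hxx hyy) hax i hii
  | sec α =>
    intro x0 x1 y0 y1 h hxx hyy hR
    unfold trCheck at h
    rcases hT : triOf Vs with _ | ⟨v, w⟩
    · rw [hT] at h; simp at h
    · rw [hT] at h
      exact ⟨_, triOf_spec hT, sec_sound h (rect_disc hR hre hxx hyy) hi hre i hii⟩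
  | skip j =>
    intro x0 x1 y0 y1 h hxx hyy hR
    exfalso
    unfold trCheck at h
    rcases hj : H[j]? with _ | e
    · rw [hj] at h; simp at h
    · rw [hj] at h
      simp only [Bool.and_eq_true, Nat.blt_eq] at h
      have hmem : e ∈ H := List.mem_of_getElem? hj
      have hh := hH e hmem
      obtain ⟨h1, h2, h3, h4⟩ := hR
      have hx0 : (x0 : ℝ) ≤ t.re * UU := by
        rcases h1 with h1 | h1
        · exact h1
        · omega
      have hlt : ((e.p1 * x1 + e.p2 * y1 + e.p3 : ℕ) : ℝ) <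
          ((e.n1 * x0 + e.n2 * y0 + e.n3 : ℕ) : ℝ) := by exact_mod_cast h.1
      push_cast at hlt
      unfold HP.holds at hh
      have p1 : (0 : ℝ) ≤ e.p1 := Nat.cast_nonneg _
      have p2 : (0 : ℝ) ≤ e.p2 := Nat.cast_nonneg _
      have n1 : (0 : ℝ) ≤ e.n1 := Nat.cast_nonneg _
      have n2 : (0 : ℝ) ≤ e.n2 := Nat.cast_nonneg _
      have g1 := mul_le_mul_of_nonneg_left hx0 n1
      have g2 := mul_le_mul_of_nonneg_left h3 n2
      have g3 := mul_le_mul_of_nonneg_left h2 p1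
      have g4 := mul_le_mul_of_nonneg_left h4 p2
      linarith
  | hx s l r ihl ihr =>
    intro x0 x1 y0 y1 h hxx hyy hR
    unfold trCheck at h
    simp only [Bool.and_eq_true, Nat.ble_eq, Nat.blt_eq] at h
    obtain ⟨⟨⟨⟨k1, k2⟩, k3⟩, k4⟩, k5⟩ := h
    obtain ⟨h1, h2, h3, h4⟩ := hR
    rcases le_total (t.re * UU) s with g | g
    · exact ihl _ _ _ _ k4 k1 hyy ⟨h1, g, h3, h4⟩
    · exact ihr _ _ _ _ k5 k2 hyy ⟨Or.inl g, h2, h3, h4⟩
  | hy s l r ihl ihr =>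
    intro x0 x1 y0 y1 h hxx hyy hR
    unfold trCheck at h
    simp only [Bool.and_eq_true, Nat.ble_eq] at h
    obtain ⟨⟨⟨k1, k2⟩, k4⟩, k5⟩ := h
    obtain ⟨h1, h2, h3, h4⟩ := hR
    rcases le_total (t.im * UU) s with g | g
    · exact ihl _ _ _ _ k4 hxx k1 ⟨h1, h2, h3, g⟩
    · exact ihr _ _ _ _ k5 hxx k2 ⟨h1, h2, g, h4⟩

/-- SOUNDNESS OF A CELL, version 2: `t` near the convex hull of the control points `C` -/
theorem cell2_sound {ax : Bool} {Vs : List (List (ℕ × ℕ))} {P : List (List E7)}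
    {C : List (ℕ × ℕ)} {ρ : ℕ} {H : List HP} {i0 x0 x1 y0 y1 : ℕ} {T : Tr}
    (h : cell2 ax Vs P C ρ H i0 x0 x1 y0 y1 T = true) {t : ℂ} (ht : Near C ρ t)
    (hi : 0 ≤ t.im) (hre : -t.im / 100 ≤ t.re) (hax : ax = true → ∀ i, 0 ≤ (powA t i).im)
    (i : ℕ) (hii : i0 ≤ i) : ∃ V ∈ Vs, InHull V (powA t i) := by
  unfold cell2 at h
  simp only [Bool.and_eq_true, Nat.ble_eq] at h
  obtain ⟨⟨⟨⟨⟨⟨h1, h2⟩, h3⟩, h4⟩, h5⟩, h6⟩, h7⟩ := h
  have hU := UU_pos
  rw [List.all_eq_true] at h3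
  refine tr_sound h1 h2 (fun e hmem => HP.all_spec (h3 e hmem) ht) hi hre hax i hii T x0 x1 y0 y1
    h7 h5 h6 ?_
  rw [List.all_eq_true] at h4
  -- the rectangle as four half planes
  have hall : ∀ e : HP, (∀ x ∈ C, e.n1 * x.1 + e.n2 * x.2 + e.n3 + ρ * (e.p1 + e.p2 + e.n1 + e.n2)
      ≤ e.p1 * x.1 + e.p2 * x.2 + e.p3) → e.holds t := by
    intro e hx
    apply HP.all_spec _ ht
    unfold HP.all
    rw [List.all_eq_true]
    intro x hxm
    rw [Nat.ble_eq]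
    exact hx x hxm
  have hC : ∀ x ∈ C, ((x0 + ρ ≤ x.1 ∨ x0 = 0) ∧ x.1 + ρ ≤ x1 ∧ (y0 + ρ ≤ x.2 ∨ y0 = 0)) ∧
      x.2 + ρ ≤ y1 := by
    intro x hx
    have := h4 x hx
    simp only [Bool.and_eq_true, Bool.or_eq_true, Nat.ble_eq, Nat.beq_eq] at this
    exact ⟨⟨this.1.1.1, this.1.1.2, this.1.2⟩, this.2⟩
  refine ⟨?_, ?_, ?_, ?_⟩
  · rcases Nat.eq_zero_or_pos x0 with g | g
    · exact Or.inr g
    · left
      have := hall ⟨1, 0, 0, 0, 0, x0⟩ (fun x hx => by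
        have := (hC x hx).1.1
        simp only [one_mul, zero_mul, add_zero, zero_add, mul_one]
        omega)
      simpa [HP.holds] using this
  · have := hall ⟨0, 0, x1, 1, 0, 0⟩ (fun x hx => by
      have := (hC x hx).1.2.1
      simp only [one_mul, zero_mul, add_zero, zero_add, mul_one]
      omega)
    simpa [HP.holds] using this
  · rcases Nat.eq_zero_or_pos y0 with g | g
    · rw [g, Nat.cast_zero]; exact mul_nonneg hi hU.le
    · have := hall ⟨0, 1, 0, 0, 0, y0⟩ (fun x hx => by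
        have := (hC x hx).1.2.2
        simp only [one_mul, zero_mul, add_zero, zero_add, mul_one]
        omega)
      simpa [HP.holds] using this
  · have := hall ⟨0, 0, y1, 0, 1, 0⟩ (fun x hx => by
      have := (hC x hx).2
      simp only [one_mul, zero_mul, add_zero, zero_add, mul_one]
      omega)
    simpa [HP.holds] using this

end Pool.Agent.Helper32.C75
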