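import Pool.Agent.Helper32.C75.Tail4

/-!
MP_c75db0 (row AM): the cell check with fast kernel arithmetic (`Nat` primitives, direct recursors,
one packed comparison per polygon).
-/

set_option autoImplicit false
namespace Pool.Agent.Helper32.C75

open Pool.Agent.Helper42.CH

/-! ### packed comparisons -/

/-- `2 ^ 64` -/
def B64 : ℕ := 18446744073709551616
/-- `2 ^ 63` -/
def B63 : ℕ := 9223372036854775808

def pack : List ℕ → ℕ
  | [] => 0
  | z :: zs => z + B64 * pack zs

theorem pack_mask : ∀ (zs : List ℕ), (∀ z ∈ zs, z < B64) →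
    Nat.land (pack zs) (pack (zs.map fun _ => B63)) = pack (zs.map fun _ => B63) →
    ∀ z ∈ zs, B63 ≤ z
  | [], _, _, z, hz => by simp at hz
  | z :: zs, hb, h, y, hy => by
    have hzb : z < 2 ^ 64 := by have := hb z (by simp); simpa [B64] using this
    have e1 : pack (z :: zs) = z + 2 ^ 64 * pack zs := by simp [pack, B64]
    have e2 : pack ((z :: zs).map fun _ => B63) = 2 ^ 63 + 2 ^ 64 * pack (zs.map fun _ => B63) := by
      simp [pack, B64, B63]
    rw [e1, e2] at h
    have h' : (z + 2 ^ 64 * pack zs) &&& (2 ^ 63 + 2 ^ 64 * pack (zs.map fun _ => B63))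
        = 2 ^ 63 + 2 ^ 64 * pack (zs.map fun _ => B63) := h
    -- bit 63
    have hz63 : B63 ≤ z := by
      have hbit := congrArg (fun n => Nat.testBit n 63) h'
      simp only [Nat.testBit_and] at hbit
      have b1 : (2 ^ 63 + 2 ^ 64 * pack (zs.map fun _ => B63)).testBit 63 = true := by
        rw [Nat.add_comm, Nat.testBit_two_pow_mul_add _ (by norm_num), if_pos (by norm_num)]
        exact Nat.testBit_two_pow_self
      rw [b1, Bool.and_true] at hbit
      have b2 : (z + 2 ^ 64 * pack zs).testBit 63 = z.testBit 63 := by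
        rw [Nat.add_comm, Nat.testBit_two_pow_mul_add _ hzb]
        simp
      rw [b2] at hbit
      have := Nat.ge_two_pow_of_testBit hbit
      simpa [B63] using this
    -- the tail
    have htail : Nat.land (pack zs) (pack (zs.map fun _ => B63)) = pack (zs.map fun _ => B63) := by
      have hs := congrArg (fun n => n >>> 64) h'
      simp only [Nat.shiftRight_and_distrib] at hs
      have s1 : (z + 2 ^ 64 * pack zs) >>> 64 = pack zs := by
        rw [Nat.shiftRight_eq_div_pow]; omega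
      have s2 : (2 ^ 63 + 2 ^ 64 * pack (zs.map fun _ => B63)) >>> 64
          = pack (zs.map fun _ => B63) := by
        rw [Nat.shiftRight_eq_div_pow]; omega
      rw [s1, s2] at hs
      exact hs
    rcases List.mem_cons.1 hy with rfl | hy
    · exact hz63
    · exact pack_mask zs (fun x hx => hb x (List.mem_cons_of_mem _ hx)) htail y hy

theorem pack_sub : ∀ (es : List E7) (f g : E7 → ℕ), (∀ e ∈ es, g e ≤ f e) →
    pack (es.map f) - pack (es.map g) = pack (es.map fun e => f e - g e) ∧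
      pack (es.map g) ≤ pack (es.map f)
  | [], _, _, _ => by simp [pack]
  | e :: es, f, g, h => by
    obtain ⟨h1, h2⟩ := pack_sub es f g (fun x hx => h x (List.mem_cons_of_mem _ hx))
    have h3 := h e (by simp)
    simp only [List.map_cons, pack]
    rw [← h1]
    simp only [B64]
    constructor <;> omega

theorem pack_lin : ∀ (es : List E7) (a b : ℕ) (f g h : E7 → ℕ),
    a * pack (es.map f) + b * pack (es.map g) + pack (es.map h)
      = pack (es.map fun e => a * f e + b * g e + h e)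
  | [], _, _, _, _, _ => by simp [pack]
  | e :: es, a, b, f, g, h => by
    simp only [List.map_cons, pack]
    rw [← pack_lin es a b f g h]
    ring

theorem pack_lin4 : ∀ (es : List E7) (a b r : ℕ) (f g h l : E7 → ℕ),
    a * pack (es.map f) + b * pack (es.map g) + (pack (es.map h) + r * pack (es.map l))
      = pack (es.map fun e => a * f e + b * g e + (h e + r * l e))
  | [], _, _, _, _, _, _, _ => by simp [pack]
  | e :: es, a, b, r, f, g, h, l => by
    simp only [List.map_cons, pack]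
    rw [← pack_lin4 es a b r f g h l]
    ring

/-- a packed polygon -/
structure PK where
  (pa pb pc na nb nc l ms : ℕ)

def PK.of (es : List E7) : PK :=
  ⟨pack (es.map E7.p1), pack (es.map E7.p2), pack (es.map fun e => e.p3 + B63),
    pack (es.map E7.n1), pack (es.map E7.n2), pack (es.map E7.n3), pack (es.map E7.L),
    pack (es.map fun _ => B63)⟩

def PK.eqb (k m : PK) : Bool :=
  Nat.beq k.pa m.pa && Nat.beq k.pb m.pb && Nat.beq k.pc m.pc && Nat.beq k.na m.na &&
    Nat.beq k.nb m.nb && Nat.beq k.nc m.nc && Nat.beq k.l m.l && Nat.beq k.ms m.ms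

theorem PK.eqb_eq {e f : PK} (h : PK.eqb e f = true) : e = f := by
  obtain ⟨a1, a2, a3, a4, a5, a6, a7, a8⟩ := e
  obtain ⟨b1, b2, b3, b4, b5, b6, b7, b8⟩ := f
  simp only [PK.eqb, Bool.and_eq_true, Nat.beq_eq] at h
  obtain ⟨⟨⟨⟨⟨⟨⟨rfl, rfl⟩, rfl⟩, rfl⟩, rfl⟩, rfl⟩, rfl⟩, rfl⟩ := h
  rfl

/-- the packed comparison -/
def pck (PA PB PC NA NB NC L MK a b r : ℕ) : Bool :=
  Nat.beq (Nat.land (Nat.sub (Nat.add (Nat.add (Nat.mul a PA) (Nat.mul b PB)) PC)
    (Nat.add (Nat.add (Nat.mul a NA) (Nat.mul b NB)) (Nat.add NC (Nat.mul r L)))) MK) MK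

/-- `2 ^ 52` -/
def B52 : ℕ := 4503599627370496

/-- `2 ^ 26` -/
def B26 : ℕ := 67108864

/-- bounds of the coefficients -/
def E7.bnd (e : E7) : Bool :=
  Nat.ble e.p1 B26 && Nat.ble e.p2 B26 && Nat.ble e.n1 B26 && Nat.ble e.n2 B26 &&
    Nat.ble e.L B26 && Nat.ble e.p3 B52 && Nat.ble e.n3 B52

theorem pck_spec {es : List E7} (hb : es.all E7.bnd = true) {a b r : ℕ} (ha : a ≤ B26)
    (hb' : b ≤ B26) (hr : r ≤ B26)
    (h : pck (PK.of es).pa (PK.of es).pb (PK.of es).pc (PK.of es).na (PK.of es).nb (PK.of es).nc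
      (PK.of es).l (PK.of es).ms a b r = true) :
    ∀ e ∈ es, e.ok a b r = true := by
  rw [List.all_eq_true] at hb
  unfold pck at h
  rw [Nat.beq_eq] at h
  have h1 : Nat.land ((a * pack (es.map E7.p1) + b * pack (es.map E7.p2) +
      pack (es.map fun e => e.p3 + B63)) - (a * pack (es.map E7.n1) + b * pack (es.map E7.n2) +
      (pack (es.map E7.n3) + r * pack (es.map E7.L)))) (pack (es.map fun _ => B63))
      = pack (es.map fun _ => B63) := h
  rw [pack_lin, pack_lin4] at h1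
  have hbb : ∀ e ∈ es, a * e.n1 + b * e.n2 + (e.n3 + r * e.L) ≤ B63 ∧
      a * e.p1 + b * e.p2 + e.p3 < B63 := by
    intro e he
    have := hb e he
    simp only [E7.bnd, Bool.and_eq_true, Nat.ble_eq] at this
    obtain ⟨⟨⟨⟨⟨⟨c1, c2⟩, c3⟩, c4⟩, c5⟩, c6⟩, c7⟩ := this
    have m1 : a * e.n1 ≤ B26 * B26 := Nat.mul_le_mul ha c3
    have m2 : b * e.n2 ≤ B26 * B26 := Nat.mul_le_mul hb' c4
    have m3 : r * e.L ≤ B26 * B26 := Nat.mul_le_mul hr c5
    have m4 : a * e.p1 ≤ B26 * B26 := Nat.mul_le_mul ha c1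
    have m5 : b * e.p2 ≤ B26 * B26 := Nat.mul_le_mul hb' c2
    simp only [B26, B52, B63] at *
    omega
  obtain ⟨h2, -⟩ := pack_sub es (fun e => a * e.p1 + b * e.p2 + (e.p3 + B63))
    (fun e => a * e.n1 + b * e.n2 + (e.n3 + r * e.L)) (fun e he => by
      have := hbb e he; omega)
  rw [h2] at h1
  have h3 : (es.map fun _ => B63) = ((es.map fun e => a * e.p1 + b * e.p2 + (e.p3 + B63) -
      (a * e.n1 + b * e.n2 + (e.n3 + r * e.L))).map fun _ => B63) := by
    rw [List.map_map]; rfl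
  rw [h3] at h1
  have h4 := pack_mask _ (by
    intro z hz
    rw [List.mem_map] at hz
    obtain ⟨e, he, rfl⟩ := hz
    have := hbb e he
    simp only [B63, B64] at *
    omega) h1
  intro e he
  have h5 := h4 _ (List.mem_map_of_mem he)
  have h6 := hbb e he
  unfold E7.ok
  rw [Nat.ble_eq]
  have e1 : e.n1 * a = a * e.n1 := Nat.mul_comm _ _
  have e2 : e.n2 * b = b * e.n2 := Nat.mul_comm _ _
  have e3 : e.p1 * a = a * e.p1 := Nat.mul_comm _ _
  have e4 : e.p2 * b = b * e.p2 := Nat.mul_comm _ _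
  rw [e1, e2, e3, e4]
  omega

/-! ### polygons -/

def PK.ok (k : PK) (a b r : ℕ) : Bool := pck k.pa k.pb k.pc k.na k.nb k.nc k.l k.ms a b r

/-- the disc is inside one of the packed polygons -/
def inK (P : List PK) (a b r : ℕ) : Bool :=
  and (Nat.ble (Nat.add a (Nat.add b r)) 67108864)
    (List.rec false (fun k _ ih => or (PK.ok k a b r) ih) P)

/-- `K` is the packed form of `P` -/
def eqK : List PK → List (List E7) → Bool
  | [], [] => true
  | k :: K, p :: P => PK.eqb k (PK.of p) && p.all E7.bnd && eqK K P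
  | _, _ => false

theorem inK_in7 : ∀ {K : List PK} {P : List (List E7)} {a b r : ℕ}, eqK K P = true →
    inK K a b r = true → in7 a b r P = true
  | [], [], _, _, _, _, h => by simp [inK] at h
  | k :: K, p :: P, a, b, r, he, h => by
    simp only [eqK, Bool.and_eq_true] at he
    obtain ⟨⟨h1, h2⟩, h3⟩ := he
    have hk := PK.eqb_eq h1
    unfold inK at h
    simp only [Bool.and_eq_true, Bool.or_eq_true, Nat.ble_eq] at h
    obtain ⟨h4, h5⟩ := h
    have h4' : a + (b + r) ≤ 67108864 := h4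
    unfold in7
    rw [List.any_cons, Bool.or_eq_true]
    rcases h5 with h5 | h5
    · left
      rw [List.all_eq_true]
      subst hk
      exact pck_spec h2 (by simp only [B26]; omega) (by simp only [B26]; omega)
        (by simp only [B26]; omega) h5
    · right
      apply inK_in7 h3 (K := K)
      unfold inK
      simp only [Bool.and_eq_true, Nat.ble_eq]
      exact ⟨h4, h5⟩
  | [], _ :: _, _, _, _, he, _ => by simp [eqK] at he
  | _ :: _, [], _, _, _, he, _ => by simp [eqK] at he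

/-! ### arithmetic with primitives -/

def loK (a b : ℕ) : ℕ := Nat.add (Nat.add 16777216 a)
  (Nat.div (Nat.mul b b) (Nat.add (Nat.mul 2 (Nat.add 16777216 a)) b))
def upK (a b : ℕ) : ℕ := Nat.add (Nat.add (Nat.sub 16777216 a)
  (Nat.div (Nat.mul b b) (Nat.mul 2 (Nat.sub 16777216 a)))) 1
def adK (x y : ℕ) : ℕ := Nat.add (Nat.sub x y) (Nat.sub y x)
def reK (t1 t2 a b a' b' : ℕ) : ℕ :=
  Nat.add (adK (Nat.add (Nat.mul (Nat.add a t1) 16777216) (Nat.mul b' b))
    (Nat.mul a' (Nat.add 16777216 a)))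
   (adK (Nat.mul (Nat.add b t2) 16777216) (Nat.add (Nat.mul b' (Nat.add 16777216 a))
    (Nat.mul a' b)))
def xaK (t1 t2 a b : ℕ) : ℕ :=
  Nat.div (Nat.mul (Nat.add (Nat.mul (Nat.add a t1) (Nat.add 16777216 a))
    (Nat.mul (Nat.add b t2) b)) 16777216)
    (Nat.add (Nat.mul (Nat.add 16777216 a) (Nat.add 16777216 a)) (Nat.mul b b))
def xbK (t1 t2 a b : ℕ) : ℕ :=
  Nat.div (Nat.mul (Nat.sub (Nat.mul (Nat.add b t2) (Nat.add 16777216 a))
    (Nat.mul (Nat.add a t1) b)) 16777216)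
    (Nat.add (Nat.mul (Nat.add 16777216 a) (Nat.add 16777216 a)) (Nat.mul b b))
def xrK (t1 t2 d a b r a' b' : ℕ) : ℕ :=
  Nat.add (Nat.div (Nat.add (Nat.add (Nat.mul r (upK a' b')) (Nat.mul d 16777216))
    (reK t1 t2 a b a' b')) (Nat.sub (loK a b) r)) 1

theorem loK_eq : loK = loP := rfl
theorem xaK_eq : xaK = nxa := rfl
theorem xbK_eq : xbK = nxb := rfl
theorem xrK_eq : xrK = nxr := rfl

def runK (P : List PK) (t1 t2 δ u v R : ℕ) (n : ℕ) : ℕ → ℕ → ℕ → Bool :=
  Nat.rec (fun a b r => Nat.ble (Nat.add (len (adK a u) (adK b v)) r) R)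
    (fun _ ih a b r => and (inK P a b r) (and (Nat.blt r (loK a b))
      (and (Nat.blt (xaK t1 t2 a b) 16777216)
        (ih (xaK t1 t2 a b) (xbK t1 t2 a b)
          (xrK t1 t2 δ a b r (xaK t1 t2 a b) (xbK t1 t2 a b)))))) n

def preK (P : List PK) (t1 t2 δ u v R n : ℕ) (k : ℕ) : ℕ → ℕ → ℕ → Bool :=
  Nat.rec (runK P t1 t2 δ u v R n)
    (fun _ ih a b r => and (Nat.blt r (loK a b))
      (and (Nat.blt (xaK t1 t2 a b) 16777216)
        (ih (xaK t1 t2 a b) (xbK t1 t2 a b)
          (xrK t1 t2 δ a b r (xaK t1 t2 a b) (xbK t1 t2 a b))))) k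

def tailK (P : List PK) (t1 t2 δ i0 n u v R : ℕ) : Bool :=
  trp t1 t2 δ u v R && inK P u v R && preK P t1 t2 δ u v R n i0 16777216 0 0

theorem runK_run7 {K : List PK} {P : List (List E7)} (he : eqK K P = true) (t1 t2 δ u v R : ℕ) :
    ∀ n a b r, runK K t1 t2 δ u v R n a b r = true → run7 P t1 t2 δ u v R n a b r = true := by
  intro n
  induction n with
  | zero => intro a b r h; exact h
  | succ n ih =>
    intro a b r h
    have h' : and (inK K a b r) (and (Nat.blt r (loK a b))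
      (and (Nat.blt (xaK t1 t2 a b) 16777216)
        (runK K t1 t2 δ u v R n (xaK t1 t2 a b) (xbK t1 t2 a b)
          (xrK t1 t2 δ a b r (xaK t1 t2 a b) (xbK t1 t2 a b))))) = true := h
    unfold run7
    simp only [Bool.and_eq_true] at h' ⊢
    exact ⟨⟨⟨inK_in7 he h'.1, h'.2.1⟩, h'.2.2.1⟩, ih _ _ _ h'.2.2.2⟩

theorem preK_pre7 {K : List PK} {P : List (List E7)} (he : eqK K P = true)
    (t1 t2 δ u v R n : ℕ) :
    ∀ k a b r, preK K t1 t2 δ u v R n k a b r = true → pre7 P t1 t2 δ u v R n k a b r = true := by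
  intro k
  induction k with
  | zero => intro a b r h; exact runK_run7 he _ _ _ _ _ _ n a b r h
  | succ k ih =>
    intro a b r h
    have h' : and (Nat.blt r (loK a b))
      (and (Nat.blt (xaK t1 t2 a b) 16777216)
        (preK K t1 t2 δ u v R n k (xaK t1 t2 a b) (xbK t1 t2 a b)
          (xrK t1 t2 δ a b r (xaK t1 t2 a b) (xbK t1 t2 a b)))) = true := h
    unfold pre7
    simp only [Bool.and_eq_true] at h' ⊢
    exact ⟨⟨h'.1, h'.2.1⟩, ih _ _ _ h'.2.2⟩

theorem tailK_tail7 {K : List PK} {P : List (List E7)} (he : eqK K P = true)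
    {t1 t2 δ i0 n u v R : ℕ} (h : tailK K t1 t2 δ i0 n u v R = true) :
    tail7 P t1 t2 δ i0 n u v R = true := by
  unfold tailK at h
  unfold tail7
  simp only [Bool.and_eq_true] at h ⊢
  exact ⟨⟨h.1.1, inK_in7 he h.1.2⟩, preK_pre7 he _ _ _ _ _ _ n i0 _ _ _ h.2⟩

/-! ### the tree -/

def trK (P : List PK) (tri : Option (ℕ × ℕ)) (H : List HP) (i0 : ℕ) :
    Tr → ℕ → ℕ → ℕ → ℕ → Bool
  | .disc n u v R, x0, x1, y0, y1 =>
      tailK P ((x0 + x1) / 2) ((y0 + y1) / 2) (rrad x0 x1 y0 y1) i0 n u v R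
  | .sec α, x0, x1, y0, y1 => match tri with
    | some (v, w) => secCheck ((x0 + x1) / 2) ((y0 + y1) / 2) (rrad x0 x1 y0 y1) i0 α v w
    | none => false
  | .skip j, x0, x1, y0, y1 => match H[j]? with
    | some e => Nat.blt (e.p1 * x1 + e.p2 * y1 + e.p3) (e.n1 * x0 + e.n2 * y0 + e.n3) &&
        Nat.blt 0 x0
    | none => false
  | .hx s l r, x0, x1, y0, y1 => Nat.ble x0 s && Nat.ble s x1 && Nat.blt 0 s &&
      trK P tri H i0 l x0 s y0 y1 && trK P tri H i0 r s x1 y0 y1
  | .hy s l r, x0, x1, y0, y1 => Nat.ble y0 s && Nat.ble s y1 &&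
      trK P tri H i0 l x0 x1 y0 s && trK P tri H i0 r x0 x1 s y1

theorem trK_trCheck {K : List PK} {P : List (List E7)} (he : eqK K P = true)
    (tri : Option (ℕ × ℕ)) (H : List HP) (i0 : ℕ) :
    ∀ (T : Tr) (x0 x1 y0 y1 : ℕ), trK K tri H i0 T x0 x1 y0 y1 = true →
      trCheck P tri H i0 T x0 x1 y0 y1 = true := by
  intro T
  induction T with
  | disc n u v R => intro x0 x1 y0 y1 h; exact tailK_tail7 he h
  | sec α => intro x0 x1 y0 y1 h; exact h
  | skip j => intro x0 x1 y0 y1 h; exact h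
  | hx s l r ihl ihr =>
    intro x0 x1 y0 y1 h
    unfold trK at h
    unfold trCheck
    simp only [Bool.and_eq_true] at h ⊢
    exact ⟨⟨h.1.1, ihl _ _ _ _ h.1.2⟩, ihr _ _ _ _ h.2⟩
  | hy s l r ihl ihr =>
    intro x0 x1 y0 y1 h
    unfold trK at h
    unfold trCheck
    simp only [Bool.and_eq_true] at h ⊢
    exact ⟨⟨h.1.1, ihl _ _ _ _ h.1.2⟩, ihr _ _ _ _ h.2⟩

/-- the edges of the polygons -/
def e7s (ax : Bool) (Vs : List (List (ℕ × ℕ))) : List (List E7) :=
  Vs.map fun V => (edges V).map (mkE7 ax)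

theorem eqb_refl (e : E7) : E7.eqb e e = true := by
  obtain ⟨a1, a2, a3, a4, a5, a6, a7⟩ := e
  simp [E7.eqb]

theorem eqL_refl : ∀ l : List E7, eqL l l = true
  | [] => rfl
  | e :: l => by simp only [eqL, eqb_refl, eqL_refl l, Bool.and_self]

theorem eqP_e7s (ax : Bool) : ∀ Vs, eqP ax (e7s ax Vs) Vs = true
  | [] => rfl
  | V :: Vs => by
    have := eqP_e7s ax Vs
    unfold e7s at this ⊢
    simp only [List.map_cons, eqP, eqL_refl, this, Bool.and_self]

/-- one cell, version 3 (same meaning as `cell2`, faster): `K` = packed polygons -/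
def cell3 (ax : Bool) (Vs : List (List (ℕ × ℕ))) (K : List PK) (C : List (ℕ × ℕ)) (ρ : ℕ)
    (H : List HP) (i0 x0 x1 y0 y1 : ℕ) (T : Tr) : Bool :=
  Vs.all okV && eqK K (e7s ax Vs) && H.all (HP.all C ρ) &&
    (C.all fun x => (Nat.ble (x0 + ρ) x.1 || Nat.beq x0 0) && Nat.ble (x.1 + ρ) x1 &&
      (Nat.ble (y0 + ρ) x.2 || Nat.beq y0 0) && Nat.ble (x.2 + ρ) y1) &&
    Nat.ble x0 x1 && Nat.ble y0 y1 && trK K (triOf Vs) H i0 T x0 x1 y0 y1

/-- SOUNDNESS OF A CELL, version 3: for all `t` within `ρ/UU` of the convex hull of the control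
points `C`, `t` in the first quadrant (small negative real part allowed), all `powA t i`, `i ≥ i0`,
are convex combinations of the vertices of one of the polygons `Vs`. -/
theorem cell3_sound {ax : Bool} {Vs : List (List (ℕ × ℕ))} {K : List PK}
    {C : List (ℕ × ℕ)} {ρ : ℕ} {H : List HP} {i0 x0 x1 y0 y1 : ℕ} {T : Tr}
    (h : cell3 ax Vs K C ρ H i0 x0 x1 y0 y1 T = true) {t : ℂ} (ht : Near C ρ t)
    (hi : 0 ≤ t.im) (hre : -t.im / 100 ≤ t.re) (hax : ax = true → ∀ i, 0 ≤ (powA t i).im)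
    (i : ℕ) (hii : i0 ≤ i) : ∃ V ∈ Vs, InHull V (powA t i) := by
  have h2 : cell2 ax Vs (e7s ax Vs) C ρ H i0 x0 x1 y0 y1 T = true := by
    unfold cell3 at h
    unfold cell2
    simp only [Bool.and_eq_true] at h ⊢
    obtain ⟨⟨⟨⟨⟨⟨h1, h2⟩, h3⟩, h4⟩, h5⟩, h6⟩, h7⟩ := h
    exact ⟨⟨⟨⟨⟨⟨h1, eqP_e7s ax Vs⟩, h3⟩, h4⟩, h5⟩, h6⟩,
      trK_trCheck h2 _ _ _ _ _ _ _ _ h7⟩
  exact cell2_sound h2 ht hi hre hax i hii

end Pool.Agent.Helper32.C75
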